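import Pool.Agent.LibNoether.N4

set_option autoImplicit false
open Polynomial

namespace Pool.Agent.LibNoether

open Pool.Agent.LibHP (RF)

/-! ### The big Galois group acting on `N(x)` -/

section big

variable {k k₁ E N : Type} [Field k] [Field k₁] [Algebra k k₁] [Group E] [Finite E]
  [Field N] [Algebra k N] [Algebra k₁ N] [IsScalarTower k k₁ N] {d : ℕ}
  (p : E →* (k₁ ≃ₐ[k] k₁)) (φ : E →* RingAut (MvPolynomial (Fin d) k₁))

/-- The fibre product of `E` and the Galois group of `N / k` over the Galois group of `k₁ / k`. -/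
def bigG (N : Type) [Field N] [Algebra k N] [Algebra k₁ N] [IsScalarTower k k₁ N] :
    Subgroup (E × (N ≃ₐ[k] N)) where
  carrier := {x | ∀ c : k₁, x.2 (algebraMap k₁ N c) = algebraMap k₁ N (p x.1 c)}
  mul_mem' := by
    rintro ⟨g, σ⟩ ⟨h, τ⟩ h1 h2 c
    change σ (τ _) = _
    rw [h2, h1]
    simp
  one_mem' := by
    intro c
    simp
  inv_mem' := by
    rintro ⟨g, σ⟩ h1 c
    change σ.symm _ = algebraMap k₁ N (p g⁻¹ c)
    rw [AlgEquiv.symm_apply_eq]
    have := h1 (p g⁻¹ c)
    simp only at this
    rw [this, ← AlgEquiv.mul_apply, ← map_mul]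
    simp

/-- The ring homomorphism given by an element of the big group. -/
noncomputable def bigHom (x : bigG p N) : MvPolynomial (Fin d) N →+* MvPolynomial (Fin d) N :=
  (linSub ((matM φ x.1.1).map (algebraMap k₁ N))).toRingHom.comp
    (MvPolynomial.map (x.1.2 : N →+* N))

omit [Finite E] in
theorem bigHom_C (x : bigG p N) (c : N) :
    bigHom p φ x (MvPolynomial.C c) = MvPolynomial.C (x.1.2 c) := by
  change linSub _ (MvPolynomial.map _ (MvPolynomial.C c)) = _
  rw [MvPolynomial.map_C, linSub_C]
  rfl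

omit [Finite E] in
theorem bigHom_X (x : bigG p N) (i : Fin d) :
    bigHom p φ x (MvPolynomial.X i) =
      ∑ j, MvPolynomial.C (algebraMap k₁ N (matM φ x.1.1 i j)) * MvPolynomial.X j := by
  change linSub _ (MvPolynomial.map _ (MvPolynomial.X i)) = _
  rw [MvPolynomial.map_X, linSub_X]
  rfl

omit [Finite E] in
theorem bigHom_one : bigHom p φ (1 : bigG p N) = RingHom.id _ := by
  apply MvPolynomial.ringHom_ext
  · intro c
    rw [bigHom_C]
    rfl
  · intro i
    rw [bigHom_X]
    change ∑ j, MvPolynomial.C (algebraMap k₁ N (matM φ (1 : E) i j)) * MvPolynomial.X j = _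
    rw [matM_one]
    simp [Matrix.one_apply]

omit [Finite E] in
theorem bigHom_mul (hφC : ∀ g c, φ g (MvPolynomial.C c) = MvPolynomial.C (p g c))
    (hφX : ∀ g i, (φ g (MvPolynomial.X i)).IsHomogeneous 1) (x y : bigG p N) :
    bigHom p φ (x * y) = (bigHom p φ x).comp (bigHom p φ y) := by
  apply MvPolynomial.ringHom_ext
  · intro c
    rw [RingHom.comp_apply, bigHom_C, bigHom_C, bigHom_C]
    rfl
  · intro i
    rw [RingHom.comp_apply, bigHom_X, bigHom_X, map_sum]
    change ∑ j, MvPolynomial.C (algebraMap k₁ N (matM φ (x.1.1 * y.1.1) i j)) *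
      MvPolynomial.X j = _
    rw [matM_mul p φ hφC hφX]
    simp only [map_mul, bigHom_C, bigHom_X, Matrix.mul_apply, map_sum, Finset.sum_mul,
      Finset.mul_sum, Matrix.map_apply]
    rw [Finset.sum_comm]
    refine Finset.sum_congr rfl fun j _ => Finset.sum_congr rfl fun l _ => ?_
    have h1 : x.1.2 (algebraMap k₁ N (matM φ y.1.1 i j)) =
        algebraMap k₁ N (p x.1.1 (matM φ y.1.1 i j)) := x.2 _
    rw [h1]
    ring

/-- The automorphism of the polynomial ring given by an element of the big group. -/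
noncomputable def bigEquiv (hφC : ∀ g c, φ g (MvPolynomial.C c) = MvPolynomial.C (p g c))
    (hφX : ∀ g i, (φ g (MvPolynomial.X i)).IsHomogeneous 1) (x : bigG p N) :
    MvPolynomial (Fin d) N ≃+* MvPolynomial (Fin d) N :=
  RingEquiv.ofRingHom (bigHom p φ x) (bigHom p φ x⁻¹)
    (by rw [← bigHom_mul p φ hφC hφX, mul_inv_cancel, bigHom_one])
    (by rw [← bigHom_mul p φ hφC hφX, inv_mul_cancel, bigHom_one])

omit [Finite E] in
theorem bigEquiv_apply (hφC : ∀ g c, φ g (MvPolynomial.C c) = MvPolynomial.C (p g c))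
    (hφX : ∀ g i, (φ g (MvPolynomial.X i)).IsHomogeneous 1) (x : bigG p N)
    (P : MvPolynomial (Fin d) N) : bigEquiv p φ hφC hφX x P = bigHom p φ x P := rfl

/-- The action of the big group on the rational function field. -/
noncomputable def bigF (hφC : ∀ g c, φ g (MvPolynomial.C c) = MvPolynomial.C (p g c))
    (hφX : ∀ g i, (φ g (MvPolynomial.X i)).IsHomogeneous 1) (x : bigG p N) :
    RF N d ≃+* RF N d :=
  IsFractionRing.ringEquivOfRingEquiv (bigEquiv p φ hφC hφX x)

omit [Finite E] in
theorem bigF_algebraMap (hφC : ∀ g c, φ g (MvPolynomial.C c) = MvPolynomial.C (p g c))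
    (hφX : ∀ g i, (φ g (MvPolynomial.X i)).IsHomogeneous 1) (x : bigG p N)
    (P : MvPolynomial (Fin d) N) :
    bigF p φ hφC hφX x (algebraMap _ _ P) = algebraMap _ _ (bigHom p φ x P) :=
  IsFractionRing.ringEquivOfRingEquiv_algebraMap _ P

/-- The action of the big group on the rational function field. -/
@[instance_reducible]
noncomputable def bigAction (hφC : ∀ g c, φ g (MvPolynomial.C c) = MvPolynomial.C (p g c))
    (hφX : ∀ g i, (φ g (MvPolynomial.X i)).IsHomogeneous 1) :
    MulSemiringAction (bigG p N) (RF N d) where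
  smul x z := bigF p φ hφC hφX x z
  one_smul z := by
    have h : (bigF p φ hφC hφX (1 : bigG p N) : RF N d →+* RF N d) = RingHom.id _ := by
      apply rf_hom_ext
      intro P
      change bigF p φ hφC hφX 1 (algebraMap _ _ P) = _
      rw [bigF_algebraMap, bigHom_one]
      rfl
    exact congrArg (fun q => q z) h
  mul_smul x y z := by
    have h : (bigF p φ hφC hφX (x * y) : RF N d →+* RF N d) =
        (bigF p φ hφC hφX x : RF N d →+* RF N d).comp (bigF p φ hφC hφX y) := by
      apply rf_hom_ext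
      intro P
      change bigF p φ hφC hφX (x * y) (algebraMap _ _ P) =
        bigF p φ hφC hφX x (bigF p φ hφC hφX y (algebraMap _ _ P))
      rw [bigF_algebraMap, bigF_algebraMap, bigF_algebraMap, bigHom_mul p φ hφC hφX]
      rfl
    exact congrArg (fun q => q z) h
  smul_zero x := map_zero (bigF p φ hφC hφX x)
  smul_add x := map_add (bigF p φ hφC hφX x)
  smul_one x := map_one (bigF p φ hφC hφX x)
  smul_mul x := map_mul (bigF p φ hφC hφX x)

omit [Finite E] in
/-- The action on the elements with coefficients in `k₁`. -/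
theorem bigF_rfMap (hφC : ∀ g c, φ g (MvPolynomial.C c) = MvPolynomial.C (p g c))
    (hφX : ∀ g i, (φ g (MvPolynomial.X i)).IsHomogeneous 1) (x : bigG p N) (z : RF k₁ d) :
    bigF p φ hφC hφX x (rfMap (algebraMap k₁ N) d z) =
      rfMap (algebraMap k₁ N) d (phiF φ x.1.1 z) := by
  have h : (bigF p φ hφC hφX x : RF N d →+* RF N d).comp (rfMap (algebraMap k₁ N) d) =
      (rfMap (algebraMap k₁ N) d).comp (phiF φ x.1.1 : RF k₁ d →+* RF k₁ d) := by
    apply rf_hom_ext'
    · intro c
      change bigF p φ hφC hφX x (rfMap (algebraMap k₁ N) d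
          (algebraMap (MvPolynomial (Fin d) k₁) (RF k₁ d) (MvPolynomial.C c))) =
        rfMap (algebraMap k₁ N) d (phiF φ x.1.1
          (algebraMap (MvPolynomial (Fin d) k₁) (RF k₁ d) (MvPolynomial.C c)))
      rw [rfMap_algebraMap, MvPolynomial.map_C, bigF_algebraMap, bigHom_C, phiF_algebraMap, hφC,
        rfMap_algebraMap, MvPolynomial.map_C]
      congr 2
      exact x.2 c
    · intro i
      change bigF p φ hφC hφX x (rfMap (algebraMap k₁ N) d
          (algebraMap (MvPolynomial (Fin d) k₁) (RF k₁ d) (MvPolynomial.X i))) =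
        rfMap (algebraMap k₁ N) d (phiF φ x.1.1
          (algebraMap (MvPolynomial (Fin d) k₁) (RF k₁ d) (MvPolynomial.X i)))
      rw [rfMap_algebraMap, MvPolynomial.map_X, bigF_algebraMap, bigHom_X, phiF_algebraMap,
        phi_X φ hφX, rfMap_algebraMap]
      simp only [map_sum, map_mul, MvPolynomial.map_C, MvPolynomial.map_X]
  exact congrArg (fun q => q z) h

/-- The field of invariants of the big group. -/
theorem isGaloisGroup_big [FiniteDimensional k N] [IsGalois k N] [IsGalois k k₁]
    (hφ : Function.Injective φ)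
    (hφC : ∀ g c, φ g (MvPolynomial.C c) = MvPolynomial.C (p g c))
    (hφX : ∀ g i, (φ g (MvPolynomial.X i)).IsHomogeneous 1)
    (K0 : Type) [Field K0] (ι : K0 →+* RF k₁ d)
    (hrange : ∀ z : RF k₁ d, (∃ a : K0, ι a = z) ↔
      ∃ P Q : MvPolynomial (Fin d) k₁, (∀ g, φ g P = P) ∧ (∀ g, φ g Q = Q) ∧ Q ≠ 0 ∧
        z * algebraMap _ (RF k₁ d) Q = algebraMap _ _ P) :
    letI := ((rfMap (algebraMap k₁ N) d).comp ι).toAlgebra
    letI := bigAction (N := N) p φ hφC hφX
    IsGaloisGroup (bigG p N) K0 (RF N d) := by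
  let _ := ((rfMap (algebraMap k₁ N) d).comp ι).toAlgebra
  let _ := bigAction (N := N) p φ hφC hφX
  have hsm : ∀ (x : bigG p N) (z : RF N d), x • z = bigF p φ hφC hφX x z := fun _ _ => rfl
  have halg : ∀ a : K0, algebraMap K0 (RF N d) a = rfMap (algebraMap k₁ N) d (ι a) :=
    fun _ => rfl
  have hinjP : Function.Injective (algebraMap (MvPolynomial (Fin d) k₁) (RF k₁ d)) :=
    IsFractionRing.injective _ _
  have hinjN : Function.Injective (algebraMap (MvPolynomial (Fin d) N) (RF N d)) :=
    IsFractionRing.injective _ _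
  have hinv : ∀ (a : K0) (g : E), phiF φ g (ι a) = ι a := by
    intro a g
    obtain ⟨P, R, hP, hR, hR0, h⟩ := (hrange (ι a)).mp ⟨a, rfl⟩
    have hR1 : algebraMap (MvPolynomial (Fin d) k₁) (RF k₁ d) R ≠ 0 :=
      (map_ne_zero_iff _ hinjP).mpr hR0
    have h1 : phiF φ g (ι a) * algebraMap _ (RF k₁ d) R = algebraMap _ _ P := by
      have h2 := congrArg (phiF φ g) h
      rw [map_mul, phiF_algebraMap, phiF_algebraMap, hP, hR] at h2
      exact h2
    exact mul_right_cancel₀ hR1 (h1.trans h.symm)
  refine ⟨⟨?_⟩, ⟨?_⟩, ⟨?_⟩⟩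
  · -- faithful
    rintro x y hxy
    have hC : ∀ c : N, x.1.2 c = y.1.2 c := by
      intro c
      have h := hxy (algebraMap (MvPolynomial (Fin d) N) (RF N d) (MvPolynomial.C c))
      rw [hsm, hsm, bigF_algebraMap, bigF_algebraMap, bigHom_C, bigHom_C] at h
      exact MvPolynomial.C_injective _ _ (hinjN h)
    have h2 : x.1.2 = y.1.2 := AlgEquiv.ext hC
    have h1 : x.1.1 = y.1.1 := by
      apply hφ
      have hz : ∀ z : RF k₁ d, phiF φ x.1.1 z = phiF φ y.1.1 z := by
        intro z
        apply (rfMap (algebraMap k₁ N) d).injective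
        rw [← bigF_rfMap p φ hφC hφX x, ← bigF_rfMap p φ hφC hφX y]
        exact hxy _
      ext1 P
      apply hinjP
      rw [← phiF_algebraMap, ← phiF_algebraMap]
      exact hz _
    exact Subtype.ext (Prod.ext h1 h2)
  · -- commutes
    intro x a z
    rw [Algebra.smul_def, Algebra.smul_def, smul_mul', halg, hsm, bigF_rfMap, hinv]
  · -- invariants
    intro z hz
    let _ : IsGalois k₁ N := IsGalois.tower_top_of_isGalois k k₁ N
    have : FiniteDimensional k₁ N := FiniteDimensional.right k k₁ N
    obtain ⟨w, hw⟩ := mem_range_rfMap (K₀ := k₁) (K := N) d z (by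
      intro σ
      let x : bigG p N := ⟨(1, σ.restrictScalars k), by
        intro c
        change σ (algebraMap k₁ N c) = _
        rw [σ.commutes, map_one]
        rfl⟩
      have h1 := hz x
      rw [hsm] at h1
      have h2 : (bigF p φ hφC hφX x : RF N d →+* RF N d) = rfMap (σ : N →+* N) d := by
        apply rf_hom_ext
        intro P
        change bigF p φ hφC hφX x (algebraMap _ _ P) = _
        rw [bigF_algebraMap, rfMap_algebraMap]
        congr 1
        change linSub ((matM φ (1 : E)).map (algebraMap k₁ N)) _ = _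
        rw [matM_one]
        have h3 : (1 : Matrix (Fin d) (Fin d) k₁).map (algebraMap k₁ N) = 1 :=
          Matrix.map_one _ (map_zero _) (map_one _)
        rw [h3, linSub_one]
        rfl
      rw [← h2]
      exact h1)
    have hwinv : ∀ g, phiF φ g w = w := by
      intro g
      obtain ⟨τ, hτ⟩ := AlgEquiv.restrictNormalHom_surjective (F := k) (K₁ := k₁) N (p g)
      let x : bigG p N := ⟨(g, τ), by
        intro c
        change τ (algebraMap k₁ N c) = algebraMap k₁ N (p g c)
        rw [← hτ]
        exact (AlgEquiv.restrictNormal_commutes τ k₁ c).symm⟩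
      apply (rfMap (algebraMap k₁ N) d).injective
      rw [← bigF_rfMap p φ hφC hφX x, hw]
      exact hz x
    obtain ⟨a, rfl⟩ := (hrange w).mpr (exists_invariant_quotient φ w hwinv)
    exact ⟨a, hw⟩

end big

end Pool.Agent.LibNoether
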