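import Pool.Agent.LibHP.S1b
import Pool.Agent.LibHP.S1

set_option autoImplicit false
open AlgebraicGeometry CategoryTheory

namespace Pool.Agent.LibNoether

open Pool.Agent.LibHP

theorem C1_quasiCompact {X : Scheme} [IsIntegral X] {L : Type} [Field L]
    (j : X.functionField →+* L) : QuasiCompact (S1a_g j) := by
  rw [quasiCompact_iff]
  intro U _ _
  have : Subsingleton (Spec (CommRingCat.of L)) :=
    inferInstanceAs (Subsingleton (PrimeSpectrum L))
  exact Set.Subsingleton.isCompact (Set.subsingleton_of_subsingleton)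

theorem C1_quasiSeparated {X : Scheme} [IsIntegral X] {L : Type} [Field L]
    (j : X.functionField →+* L) : QuasiSeparated (S1a_g j) := by
  have : QuasiSeparated (S1a_g j ≫ Limits.terminal.from X) := inferInstance
  exact QuasiSeparated.of_comp (S1a_g j) (Limits.terminal.from X)

/-- The integral closure is a finite module. -/
theorem C1_finite {A K L B : Type} [CommRing A] [IsDomain A] [IsNoetherianRing A]
    [IsIntegrallyClosed A] [Field K] [Algebra A K] [IsFractionRing A K] [CharZero K] [Field L]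
    [CommRing B] (j : K →+* L) (hfin : j.Finite) (ψ : A →+* B) (e : B ≃+* L)
    (he : ∀ a, e (ψ a) = j (algebraMap A K a)) :
    letI := ψ.toAlgebra
    Module.Finite A (integralClosure A B) := by
  let _ := ψ.toAlgebra
  let _ : Algebra K L := j.toAlgebra
  let _ : Algebra A L := (j.comp (algebraMap A K)).toAlgebra
  have : IsScalarTower A K L := IsScalarTower.of_algebraMap_eq' rfl
  have : FiniteDimensional K L := hfin
  have : Algebra.IsSeparable K L := inferInstance
  have h1 : Module.Finite A (integralClosure A L) := IsIntegralClosure.finite A K L _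
  let e' : L ≃ₐ[A] B := AlgEquiv.ofRingEquiv (f := e.symm) (by
    intro a
    rw [RingEquiv.symm_apply_eq]
    exact (he a).symm)
  exact Module.Finite.equiv (e'.mapIntegralClosure).toLinearEquiv

theorem C1_spec {A B : CommRingCat} (ψ : A ⟶ B)
    (h : letI := ψ.hom.toAlgebra
      Module.Finite A (integralClosure A B)) :
    letI := ψ.hom.toAlgebra
    IsFinite (Spec.map (CommRingCat.ofHom (algebraMap A (integralClosure A B)))) := by
  let _ := ψ.hom.toAlgebra
  rw [IsFinite.SpecMap_iff]
  exact RingHom.finite_algebraMap.2 h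

theorem C1_local {X : Scheme} [IsIntegral X] {L : Type} [Field L]
    (j : X.functionField →+* L) (hfin : j.Finite) [CharZero X.functionField]
    (U : X.Opens) (hU : IsAffineOpen U) (hg : genericPoint X ∈ U)
    [IsNoetherianRing Γ(X, U)] [IsIntegrallyClosed Γ(X, U)] :
    IsFinite (Spec.map ((S1a_g j).normalizationDiagramMap.app (.op U))) := by
  have hne : Nonempty U := ⟨⟨_, hg⟩⟩
  have hfr : IsFractionRing Γ(X, U) X.functionField :=
    functionField_isFractionRing_of_isAffineOpen X U hU
  exact C1_spec ((S1a_g j).app U) (C1_finite (K := X.functionField) j hfin ((S1a_g j).app U).hom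
    (S1a_e j U hg).commRingCatIsoToRingEquiv (S1a_e_apply j U hg))

set_option backward.isDefEq.respectTransparency.types false in
theorem C1_isFinite {X : Scheme} [IsIntegral X] {L : Type} [Field L]
    (j : X.functionField →+* L) (hfin : j.Finite) [CharZero X.functionField]
    [QuasiCompact (S1a_g j)] [QuasiSeparated (S1a_g j)]
    (hnorm : ∀ x : X, ∃ V : X.Opens, IsAffineOpen V ∧ x ∈ V ∧ IsIntegrallyClosed Γ(X, V) ∧
      IsNoetherianRing Γ(X, V)) :
    IsFinite (S1a_g j).fromNormalization := by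
  apply IsZariskiLocalAtTarget.of_forall_exists_morphismRestrict (P := @IsFinite)
  intro x
  obtain ⟨U, hU, hx, h1, h2⟩ := hnorm x
  exact ⟨U, hx, S1a_restrict _ @IsFinite ⟨U, hU⟩ (C1_local j hfin U hU (genericPoint_mem U x hx))⟩

theorem C1_surjective {X : Scheme} [IsIntegral X] {L : Type} [Field L]
    (j : X.functionField →+* L) [QuasiCompact (S1a_g j)] [QuasiSeparated (S1a_g j)] :
    Surjective (S1a_g j).fromNormalization := by
  have h1 : IsDominant (S1a_g j).fromNormalization := by
    refine ⟨?_⟩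
    rw [DenseRange, dense_iff_closure_eq]
    have h2 : genericPoint X ∈ Set.range (S1a_g j).fromNormalization := by
      have y : Spec (CommRingCat.of L) := IsLocalRing.closedPoint L
      refine ⟨(S1a_g j).toNormalization y, ?_⟩
      rw [← Scheme.Hom.comp_apply, Scheme.Hom.toNormalization_fromNormalization, S1a_g_apply]
    have h3 : closure {genericPoint X} ⊆ closure (Set.range (S1a_g j).fromNormalization) :=
      closure_mono (by simpa using h2)
    rw [(genericPoint_spec X).def] at h3
    exact Set.eq_univ_of_univ_subset h3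
  refine ⟨?_⟩
  have h4 : IsClosedMap (S1a_g j).fromNormalization := (S1a_g j).fromNormalization.isClosedMap
  have h5 : Set.range (S1a_g j).fromNormalization = Set.univ := by
    rw [← h4.isClosed_range.closure_eq]
    exact h1.denseRange.closure_range
  exact Set.range_eq_univ.mp h5


/-- A morphism from the spectrum of a field whose image is in an affine open. -/
theorem C1_point {k : Type} [Field k] {X : Scheme} (f : X ⟶ Spec (CommRingCat.of k))
    (W : X.Opens) (hW : IsAffineOpen W) (s : Spec (CommRingCat.of k) ⟶ X) (hs : s ≫ f = 𝟙 _)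
    (h : ⊤ ≤ s ⁻¹ᵁ W) :
    ∃ φ : Γ(X, W) →+* k, s = Spec.map (CommRingCat.ofHom φ) ≫ hW.fromSpec ∧
      (∀ c, φ (toSec f W c) = c) ∧
      s.appLE W ⊤ h ≫ (Scheme.ΓSpecIso (CommRingCat.of k)).hom = CommRingCat.ofHom φ := by
  refine ⟨(s.appLE W ⊤ h ≫ (Scheme.ΓSpecIso (CommRingCat.of k)).hom).hom, ?_, ?_, rfl⟩
  · have h1 := IsAffineOpen.SpecMap_appLE_fromSpec s hW
      (isAffineOpen_top (Spec (CommRingCat.of k))) h
    rw [IsAffineOpen.fromSpec_top, Scheme.isoSpec_Spec_inv] at h1
    have h2 : (CommRingCat.ofHom (s.appLE W ⊤ h ≫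
      (Scheme.ΓSpecIso (CommRingCat.of k)).hom).hom) =
      s.appLE W ⊤ h ≫ (Scheme.ΓSpecIso (CommRingCat.of k)).hom := rfl
    rw [h2, Spec.map_comp, Category.assoc, h1, ← Category.assoc, ← Spec.map_comp,
      Iso.inv_hom_id, Spec.map_id, Category.id_comp]
  · intro c
    have h3 : (Scheme.ΓSpecIso (CommRingCat.of k)).inv ≫ f.appLE ⊤ W le_top ≫
        s.appLE W ⊤ h ≫ (Scheme.ΓSpecIso (CommRingCat.of k)).hom = 𝟙 _ := by
      rw [Scheme.Hom.appLE_comp_appLE_assoc]
      have h4 : (s ≫ f).appLE ⊤ ⊤ le_top = 𝟙 _ := by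
        have : ∀ (g : Spec (CommRingCat.of k) ⟶ Spec (CommRingCat.of k)) (hg : g = 𝟙 _)
            (h : ⊤ ≤ g ⁻¹ᵁ ⊤), g.appLE ⊤ ⊤ h = 𝟙 _ := by
          rintro _ rfl h
          simp [Scheme.Hom.appLE]
        exact this _ hs _
      rw [h4]
      simp
    exact congrArg (fun q => q.hom c) h3

theorem C1_ne {k : Type} [Field k] {X : Scheme}
    (W : X.Opens) (hW : IsAffineOpen W) (φ : Γ(X, W) →+* k) (a : Γ(X, W))
    (x : Spec (CommRingCat.of k))
    (hx : (Spec.map (CommRingCat.ofHom φ) ≫ hW.fromSpec : Spec (CommRingCat.of k) ⟶ X) x ∈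
      X.basicOpen a) : φ a ≠ 0 := by
  rw [Scheme.Hom.comp_apply] at hx
  have h1 : Spec.map (CommRingCat.ofHom φ) x ∈ hW.fromSpec ⁻¹ᵁ (X.basicOpen a) := hx
  rw [hW.fromSpec_preimage_basicOpen] at h1
  intro h0
  have h2 : a ∉ (Spec.map (CommRingCat.ofHom φ) x).asIdeal := h1
  apply h2
  show φ a ∈ x.asIdeal
  rw [h0]
  exact zero_mem _

/-- Transfer of a homomorphism on the integral closure along an isomorphism. -/
theorem C1_transfer {A L B k : Type} [CommRing A] [Field L] [CommRing B] [Field k] (χ : A →+* L)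
    (ψ : A →+* B) (e : B ≃+* L) (he : ∀ a, e (ψ a) = χ a) (φ : A →+* k)
    (h : letI := χ.toAlgebra
      ∃ τ : integralClosure A L →+* k, ∀ s, τ (algebraMap _ _ s) = φ s) :
    letI := ψ.toAlgebra
    ∃ τ : integralClosure A B →+* k, ∀ s, τ (algebraMap _ _ s) = φ s := by
  let _ := χ.toAlgebra
  let _ := ψ.toAlgebra
  obtain ⟨τ, hτ⟩ := h
  let e' : B ≃ₐ[A] L := AlgEquiv.ofRingEquiv (f := e) he
  refine ⟨τ.comp (e'.mapIntegralClosure : integralClosure A B →+* integralClosure A L), ?_⟩
  intro s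
  rw [← hτ s]
  show τ (e'.mapIntegralClosure (algebraMap _ _ s)) = _
  rw [AlgEquiv.commutes]

theorem C1_lift {k : Type} [Field k] {X Z : Scheme} (g : Z ⟶ X) [QuasiCompact g]
    [QuasiSeparated g] (W : X.Opens) (hW : IsAffineOpen W) (φ : Γ(X, W) →+* k)
    (h : letI := (g.app W).hom.toAlgebra
      ∃ τ : integralClosure Γ(X, W) Γ(Z, g ⁻¹ᵁ W) →+* k, ∀ s, τ (algebraMap _ _ s) = φ s) :
    ∃ t : Spec (CommRingCat.of k) ⟶ g.normalization,
      t ≫ g.fromNormalization = Spec.map (CommRingCat.ofHom φ) ≫ hW.fromSpec := by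
  let _ := (g.app W).hom.toAlgebra
  obtain ⟨τ, hτ⟩ := h
  refine ⟨Spec.map (CommRingCat.ofHom τ) ≫ g.normalizationOpenCover.f ⟨W, hW⟩, ?_⟩
  have h2 := g.ι_fromNormalization ⟨W, hW⟩
  have h3 : g.normalizationDiagramMap.app (.op W) ≫ CommRingCat.ofHom τ = CommRingCat.ofHom φ := by
    ext s
    exact hτ s
  refine (Category.assoc _ _ _).trans
    ((congrArg (Spec.map (CommRingCat.ofHom τ) ≫ ·) h2).trans ?_)
  rw [← h3, Spec.map_comp, Category.assoc]
  rfl

theorem C1_isNoetherianRing {k : Type} [Field k] {X : Scheme} (f : X ⟶ Spec (CommRingCat.of k))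
    [LocallyOfFiniteType f] (W : X.Opens) (hW : IsAffineOpen W) : IsNoetherianRing Γ(X, W) := by
  let _ : Algebra k Γ(X, W) := (toSec f W).toAlgebra
  have hft : Algebra.FiniteType k Γ(X, W) := by
    have h2 : (toSec f W).FiniteType := by
      refine RingHom.FiniteType.comp (g := (f.appLE ⊤ W le_top).hom)
        (f.finiteType_appLE (isAffineOpen_top _) hW le_top) ?_
      exact RingHom.FiniteType.of_surjective _
        ((ConcreteCategory.isIso_iff_bijective
          (Scheme.ΓSpecIso (CommRingCat.of k)).inv).mp inferInstance).2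
    exact h2
  exact Algebra.FiniteType.isNoetherianRing k _

/-- From the Hilbert property: a rational point of an affine open, off a given hypersurface, which
does not lift to the normalizations of `X` in finitely many nontrivial finite extensions of the
function field. -/
theorem exists_point_not_lifting (k : Type) [Field k] [CharZero k] {X : Scheme}
    (f : X ⟶ Spec (CommRingCat.of k)) [IsIntegral X] [Smooth f] (hHP : HilbertProp f)
    (n : ℕ) (L : Fin n → Type) [∀ i, Field (L i)] (j : ∀ i, X.functionField →+* L i)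
    (hfin : ∀ i, (j i).Finite) (hj : ∀ i, ¬ Function.Surjective (j i))
    (W : X.Opens) (hW : IsAffineOpen W) (h1 : genericPoint X ∈ W) (a : Γ(X, W)) (ha : a ≠ 0) :
    ∃ φ : Γ(X, W) →+* k, (∀ c, φ (toSec f W c) = c) ∧ φ a ≠ 0 ∧
      ∀ i, letI := ((j i).comp (X.presheaf.germ W _ h1).hom).toAlgebra
        ∀ τ : integralClosure Γ(X, W) (L i) →+* k, ∃ s, τ (algebraMap _ _ s) ≠ φ s := by
  have hch : CharZero X.functionField :=
    charZero_of_injective_ringHom (toStalk f (genericPoint X)).injective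
  have hqc : ∀ i, QuasiCompact (S1a_g (j i)) := fun i => C1_quasiCompact (j i)
  have hqs : ∀ i, QuasiSeparated (S1a_g (j i)) := fun i => C1_quasiSeparated (j i)
  have hnorm : ∀ x : X, ∃ V : X.Opens, IsAffineOpen V ∧ x ∈ V ∧ IsIntegrallyClosed Γ(X, V) ∧
      IsNoetherianRing Γ(X, V) := by
    intro x
    obtain ⟨V, hV, hxV, d, ψ, hψ⟩ := exists_etale_chart f x
    refine ⟨V, hV, hxV, ?_, C1_isNoetherianRing f V hV⟩
    have hne : Nonempty V := ⟨⟨_, hxV⟩⟩
    let _ := ψ.toAlgebra
    have : Algebra.Etale (MvPolynomial (Fin d) k) Γ(X, V) := hψ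
    exact isIntegrallyClosed_of_etale k d Γ(X, V)
  have hdense := hHP n (fun i => (S1a_g (j i)).normalization)
    (fun i => (S1a_g (j i)).fromNormalization) (fun i => inferInstance)
    (fun i => C1_isFinite (j i) (hfin i) hnorm) (fun i => C1_surjective (j i))
    (fun i hi => hj i (S1a_surj (j i) (hfin i) W hW ⟨_, h1⟩))
  have hbne : (X.basicOpen a : Set X).Nonempty := by
    rw [Set.nonempty_iff_ne_empty]
    intro h0
    apply ha
    have h2 : X.basicOpen a = ⊥ := by
      ext x
      simp [h0]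
    exact (basicOpen_eq_bot_iff a).mp h2
  obtain ⟨x, hxa, s, hs, ⟨y, hy⟩, hlift⟩ := hdense.inter_open_nonempty _ (X.basicOpen a).isOpen hbne
  have hsub : Subsingleton (Spec (CommRingCat.of k)) :=
    inferInstanceAs (Subsingleton (PrimeSpectrum k))
  have hle : ⊤ ≤ s ⁻¹ᵁ W := by
    intro z _
    show s z ∈ W
    rw [Subsingleton.elim z y]
    exact X.basicOpen_le a (hy ▸ hxa)
  obtain ⟨φ, hφ, hφc, _⟩ := C1_point f W hW s hs hle
  refine ⟨φ, hφc, ?_, ?_⟩
  · apply C1_ne W hW φ a y
    rw [← hφ]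
    exact hy ▸ hxa
  · intro i τ
    by_contra hcon
    push Not at hcon
    obtain ⟨t, ht⟩ := C1_lift (S1a_g (j i)) W hW φ
      (C1_transfer _ ((S1a_g (j i)).app W).hom (S1a_e (j i) W h1).commRingCatIsoToRingEquiv
        (S1a_e_apply (j i) W h1) φ ⟨τ, hcon⟩)
    exact hlift i t (ht.trans hφ.symm)

end Pool.Agent.LibNoether
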