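import Mathlib

set_option autoImplicit false

namespace Pool.Agent.LibNoether

open scoped Pointwise in
attribute [local instance] Ideal.Quotient.field in
/-- Core of `exists_residue`: everything about a prime `P` of `B` over the kernel of `φ`. -/
theorem d1_core (k A B G : Type) [Field k] [CharZero k] [CommRing A] [CommRing B] [IsDomain B]
    [Algebra k A] [Algebra A B] [Group G] [Finite G] [MulSemiringAction G B] [hG : IsGaloisGroup G A B]
    (φ : A →+* k) (hφ : ∀ c, φ (algebraMap k A c) = c) (P : Ideal B) [P.IsMaximal]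
    [P.LiesOver (RingHom.ker φ)] (hinert : ∀ g : G, g ≠ 1 → ∃ b : B, g • b - b ∉ P)
    (hdec : ∀ H : Subgroup G, H ≠ ⊤ → ∀ τ : FixedPoints.subring B H →+* k,
      ∃ (s : A) (h : algebraMap A B s ∈ FixedPoints.subring B H), τ ⟨algebraMap A B s, h⟩ ≠ φ s) :
    ∃ (κ : Type) (_ : Field κ) (_ : Algebra k κ) (_ : MulSemiringAction G κ)
        (π : B →+* κ), IsGaloisGroup G k κ ∧
        (∀ c, π (algebraMap A B (algebraMap k A c)) = algebraMap k κ c) ∧
        ∀ (g : G) (b : B), π (g • b) = g • π b := by
  classical
  have hsurj : Function.Surjective φ := fun c => ⟨algebraMap k A c, hφ c⟩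
  have hmax : (RingHom.ker φ).IsMaximal := RingHom.ker_isMaximal_of_surjective φ hsurj
  have hcomm : SMulCommClass G A B := hG.commutes
  have hinv : Algebra.IsInvariant A B G := hG.isInvariant
  obtain ⟨p, hp⟩ : ∃ p : Ideal A, p = RingHom.ker φ := ⟨_, rfl⟩
  rw [← hp] at hmax
  have hover : P.LiesOver p := by rw [hp]; infer_instance
  -- the isomorphism A / p = k
  let e : A ⧸ p ≃+* k := (Ideal.quotEquivOfEq hp).trans (RingHom.quotientKerEquivOfSurjective hsurj)
  have he : ∀ s : A, e (Ideal.Quotient.mk p s) = φ s := fun s => rfl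
  have hchar : CharZero (A ⧸ p) := by
    have : Function.Injective (e.symm.toRingHom) := e.symm.injective
    exact charZero_of_injective_ringHom this
  have hnormal : Normal (A ⧸ p) (B ⧸ P) := Ideal.Quotient.normal G p P
  have hgal : IsGalois (A ⧸ p) (B ⧸ P) := { }
  have hst : Function.Surjective (Ideal.Quotient.stabilizerHom P p G) :=
    Ideal.Quotient.stabilizerHom_surjective G p P
  -- the decomposition group is everything
  have hD : MulAction.stabilizer G P = ⊤ := by
    by_contra hne
    have hfin : Finite Gal((B ⧸ P)/(A ⧸ p)) := Finite.of_surjective _ hst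
    have hfd : FiniteDimensional (A ⧸ p) (B ⧸ P) := IsGalois.finiteDimensional_of_finite _ _
    let ψ : FixedPoints.subring B (MulAction.stabilizer G P) →+* B ⧸ P :=
      (Ideal.Quotient.mk P).comp (FixedPoints.subring B (MulAction.stabilizer G P)).subtype
    have hψ : ∀ x, ψ x ∈ (algebraMap (A ⧸ p) (B ⧸ P)).range := by
      intro x
      rw [RingHom.mem_range]
      have := (IsGalois.mem_range_algebraMap_iff_fixed (F := A ⧸ p) (ψ x)).2 (by
        intro f
        obtain ⟨g, rfl⟩ := hst f
        change Ideal.Quotient.mk P (g • (x : B)) = Ideal.Quotient.mk P (x : B)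
        rw [x.2 g])
      exact this
    let i : A ⧸ p ≃+* (algebraMap (A ⧸ p) (B ⧸ P)).range :=
      RingEquiv.ofBijective (algebraMap (A ⧸ p) (B ⧸ P)).rangeRestrict
        ⟨fun x y h => (algebraMap (A ⧸ p) (B ⧸ P)).injective (congrArg Subtype.val h),
          (algebraMap (A ⧸ p) (B ⧸ P)).rangeRestrict_surjective⟩
    obtain ⟨s, hs, hne'⟩ := hdec _ hne (e.toRingHom.comp (i.symm.toRingHom.comp
      (ψ.codRestrict _ hψ)))
    apply hne'
    have h1 : (ψ.codRestrict _ hψ) ⟨algebraMap A B s, hs⟩ = i (Ideal.Quotient.mk p s) :=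
      Subtype.ext rfl
    change e (i.symm ((ψ.codRestrict _ hψ) ⟨algebraMap A B s, hs⟩)) = φ s
    rw [h1, RingEquiv.symm_apply_apply, he]
  -- the isomorphism of G with the Galois group
  let f0 : G →* MulAction.stabilizer G P :=
    (MonoidHom.id G).codRestrict _ (fun g => by rw [hD]; trivial)
  let f : G →* Gal((B ⧸ P)/(A ⧸ p)) := (Ideal.Quotient.stabilizerHom P p G).comp f0
  have hf : ∀ (g : G) (b : B), f g (Ideal.Quotient.mk P b) = Ideal.Quotient.mk P (g • b) :=
    fun g b => rfl
  have hfbij : Function.Bijective f := by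
    constructor
    · rw [injective_iff_map_eq_one]
      intro g hg
      by_contra hne
      obtain ⟨b, hb⟩ := hinert g hne
      apply hb
      rw [← Ideal.Quotient.eq, ← hf, hg]
      rfl
    · intro x
      obtain ⟨g, hg⟩ := hst x
      exact ⟨g, hg⟩
  let act : MulSemiringAction G (B ⧸ P) := MulSemiringAction.compHom (B ⧸ P) f
  have hact : ∀ (g : G) (x : B ⧸ P), g • x = f g x := fun g x => rfl
  have hGal : IsGaloisGroup G (A ⧸ p) (B ⧸ P) :=
    IsGaloisGroup.of_mulEquiv (MulEquiv.ofBijective f hfbij) (fun g x => rfl)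
  let alg : Algebra k (B ⧸ P) := ((algebraMap (A ⧸ p) (B ⧸ P)).comp e.symm.toRingHom).toAlgebra
  have halg : ∀ c, algebraMap k (B ⧸ P) c = algebraMap (A ⧸ p) (B ⧸ P) (e.symm c) := fun c => rfl
  refine ⟨B ⧸ P, inferInstance, alg, act, Ideal.Quotient.mk P, ?_, ?_, ?_⟩
  · refine IsGaloisGroup.of_ringEquiv G (A ⧸ p) k (B ⧸ P) e (fun a => ?_)
    rw [halg, RingEquiv.symm_apply_apply]
  · intro c
    have : e.symm c = Ideal.Quotient.mk p (algebraMap k A c) := by
      rw [RingEquiv.symm_apply_eq, he, hφ]
    rw [halg, this]
    rfl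
  · intro g b
    rw [hact, hf]

/-- The residue field at a point which does not lift to the intermediate covers of a Galois cover
is a Galois extension with the same Galois group. -/
theorem exists_residue (k A K0 L G : Type) [Field k] [CharZero k] [CommRing A] [IsDomain A]
    [IsIntegrallyClosed A] [Algebra k A] [Field K0] [Algebra A K0] [IsFractionRing A K0]
    [Field L] [Algebra K0 L] [Algebra A L] [IsScalarTower A K0 L] [Group G] [Finite G]
    [MulSemiringAction G L] [IsGaloisGroup G K0 L] :
    ∃ a : A, a ≠ 0 ∧ ∀ φ : A →+* k, (∀ c, φ (algebraMap k A c) = c) → φ a ≠ 0 →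
      (∀ H : Subgroup G, H ≠ ⊤ →
        ∀ τ : integralClosure A (FixedPoints.intermediateField H : IntermediateField K0 L) →+* k,
          ∃ s : A, τ (algebraMap A _ s) ≠ φ s) →
      ∃ (κ : Type) (_ : Field κ) (_ : Algebra k κ) (_ : MulSemiringAction G κ)
        (π : integralClosure A L →+* κ), IsGaloisGroup G k κ ∧
        (∀ c, π (algebraMap A _ (algebraMap k A c)) = algebraMap k κ c) ∧
        ∀ (g : G) (b b' : integralClosure A L), (b' : L) = g • (b : L) → π b' = g • π b := by
  classical
  have := Fintype.ofFinite G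
  have hfd : FiniteDimensional K0 L := IsGaloisGroup.finiteDimensional G K0 L
  have hcK : SMulCommClass G K0 L := IsGaloisGroup.commutes
  have hcA : SMulCommClass G A L := ⟨fun g a x => by
    rw [← algebraMap_smul K0 a x, ← algebraMap_smul K0 a (g • x), smul_comm]⟩
  have hfr : IsFractionRing (integralClosure A L) L :=
    integralClosure.isFractionRing_of_finite_extension K0 L
  have hGB : IsGaloisGroup G A (integralClosure A L) :=
    IsGaloisGroup.of_isFractionRing G A (integralClosure A L) K0 L
  have hfaith : FaithfulSMul G (integralClosure A L) := hGB.faithful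
  have hinv : Algebra.IsInvariant A (integralClosure A L) G := hGB.isInvariant
  -- elements moved by each g
  have hmove : ∀ g : G, g ≠ 1 → ∃ b : integralClosure A L, g • b - b ≠ 0 := by
    intro g hg
    by_contra hcon
    push Not at hcon
    apply hg
    exact hfaith.eq_of_smul_eq_smul fun b => by rw [one_smul]; exact sub_eq_zero.1 (hcon b)
  choose! bb hbb using hmove
  obtain ⟨δ, hδ⟩ : ∃ δ : integralClosure A L, δ = ∏ g ∈ Finset.univ.erase (1 : G), (g • bb g - bb g) :=
    ⟨_, rfl⟩
  have hδ0 : δ ≠ 0 := by
    rw [hδ, Finset.prod_ne_zero_iff]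
    intro g hg
    exact hbb g (Finset.ne_of_mem_erase hg)
  obtain ⟨a, ha⟩ := hinv.isInvariant (∏ h : G, h • δ) (Finset.smul_prod_perm δ)
  refine ⟨a, ?_, ?_⟩
  · rintro rfl
    rw [map_zero] at ha
    have := Finset.prod_eq_zero_iff.1 ha.symm
    obtain ⟨h, -, hh⟩ := this
    exact hδ0 ((smul_eq_zero_iff_eq h).1 hh)
  · intro φ hφ hφa hH
    have hsurj : Function.Surjective φ := fun c => ⟨algebraMap k A c, hφ c⟩
    have hmax : (RingHom.ker φ).IsMaximal := RingHom.ker_isMaximal_of_surjective φ hsurj
    have hinjL : FaithfulSMul A L := (faithfulSMul_iff_algebraMap_injective A L).2 (by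
      rw [IsScalarTower.algebraMap_eq A K0 L]
      exact (algebraMap K0 L).injective.comp (IsFractionRing.injective A K0))
    have hinj : FaithfulSMul A (integralClosure A L) :=
      (faithfulSMul_iff_algebraMap_injective A (integralClosure A L)).2 (fun x y h => by
        have h' : algebraMap A L x = algebraMap A L y := congrArg Subtype.val h
        exact FaithfulSMul.algebraMap_injective A L h')
    obtain ⟨P, hPmax, hPover⟩ := Ideal.exists_maximal_ideal_liesOver_of_isIntegral
      (S := integralClosure A L) (RingHom.ker φ)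
    have hin : ∀ g : G, g ≠ 1 → ∃ b : integralClosure A L, g • b - b ∉ P := by
      intro g hg
      refine ⟨bb g, fun hmem => hφa ?_⟩
      have hδP : δ ∈ P := by
        rw [hδ]
        exact Ideal.prod_mem P (Finset.mem_erase.2 ⟨hg, Finset.mem_univ g⟩) hmem
      have hprod : ∏ h : G, h • δ ∈ P :=
        Ideal.prod_mem P (Finset.mem_univ (1 : G)) (by rwa [one_smul])
      rw [← ha] at hprod
      have := (Ideal.mem_of_liesOver P (RingHom.ker φ) a).2 hprod
      exact this
    have hdec : ∀ H : Subgroup G, H ≠ ⊤ →
        ∀ τ : FixedPoints.subring (integralClosure A L) H →+* k,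
        ∃ (s : A) (h : algebraMap A (integralClosure A L) s ∈
          FixedPoints.subring (integralClosure A L) H),
          τ ⟨algebraMap A (integralClosure A L) s, h⟩ ≠ φ s := by
      intro H hne τ
      let j : (FixedPoints.intermediateField H : IntermediateField K0 L) →ₐ[A] L :=
        { (FixedPoints.intermediateField H : IntermediateField K0 L).val.toRingHom with
          commutes' := fun a => rfl }
      let ι : integralClosure A (FixedPoints.intermediateField H : IntermediateField K0 L) →+*
          FixedPoints.subring (integralClosure A L) H :=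
        { toFun := fun x => ⟨⟨((x : (FixedPoints.intermediateField H : IntermediateField K0 L)) : L), by
              have := x.2
              exact this.map j⟩, by
              intro h
              exact Subtype.ext ((x : (FixedPoints.intermediateField H : IntermediateField K0 L)).2 h)⟩
          map_one' := rfl
          map_mul' := fun _ _ => rfl
          map_zero' := rfl
          map_add' := fun _ _ => rfl }
      obtain ⟨s, hs⟩ := hH H hne (τ.comp ι)
      refine ⟨s, ?_, ?_⟩
      · intro h
        exact smul_algebraMap (h : G) s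
      · intro hcon
        apply hs
        rw [← hcon]
        rfl
    obtain ⟨κ, iF, iA, iM, π, h1, h2, h3⟩ :=
      d1_core k A (integralClosure A L) G φ hφ P hin hdec
    refine ⟨κ, iF, iA, iM, π, h1, h2, ?_⟩
    intro g b b' hb
    have : b' = g • b := Subtype.ext hb
    rw [this, h3]

end Pool.Agent.LibNoether
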