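import Pool.Agent.LibNoether.N0
import Pool.Agent.LibNoether.B1

set_option autoImplicit false

namespace Pool.Agent.LibNoether

/-- A Galois extension of `k` with the big Galois group gives a proper solution of the embedding
problem. -/
theorem exists_solution_of_residue {k k₁ E : Type} [Field k] [Field k₁] [Algebra k k₁] [Group E]
    [Finite E] (p : E →* (k₁ ≃ₐ[k] k₁)) [FiniteDimensional k k₁] [IsGalois k k₁]
    (N : IntermediateField k (AlgebraicClosure k₁)) [IsGalois k N] [FiniteDimensional k N]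
    [Algebra k₁ N] [IsScalarTower k k₁ N] [IsScalarTower k₁ N (AlgebraicClosure k₁)]
    (κ : Type) [Field κ] [Algebra k κ] [MulSemiringAction (bigG p N) κ]
    [IsGaloisGroup (bigG p N) k κ] (πN : N →ₐ[k] κ)
    (hπ : ∀ (x : bigG p N) (n : N), πN (x.1.2 n) = x • πN n) :
    ∃ K : IntermediateField k (AlgebraicClosure k₁), ProperSolution p K ∧
      ∀ z ∈ K, z ∈ N → z ∈ Set.range (algebraMap k₁ (AlgebraicClosure k₁)) := by
  have hfinG : Finite (N ≃ₐ[k] N) := inferInstance
  have hfinB : Finite (bigG p N) := inferInstance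
  let _ : Algebra N κ := πN.toRingHom.toAlgebra
  have htow : IsScalarTower k N κ := IsScalarTower.of_algebraMap_eq fun c => (πN.commutes c).symm
  have hfdκ : FiniteDimensional k κ := IsGaloisGroup.finiteDimensional (bigG p N) k κ
  have hfdN : FiniteDimensional N κ := FiniteDimensional.right k N κ
  let ε : κ →ₐ[N] AlgebraicClosure k₁ := IsAlgClosed.lift
  let ε' : κ →ₐ[k] AlgebraicClosure k₁ := ε.restrictScalars k
  have hεN : ∀ n : N, ε' (πN n) = n := fun n => ε.commutes n
  -- the normal subgroup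
  let fst : bigG p N →* E := (MonoidHom.fst E (N ≃ₐ[k] N)).comp (bigG p N).subtype
  have hfst : Function.Surjective fst := by
    intro g
    obtain ⟨τ, hτ⟩ := AlgEquiv.restrictNormalHom_surjective (F := k) (K₁ := k₁) N (p g)
    refine ⟨⟨(g, τ), ?_⟩, rfl⟩
    intro c
    change τ (algebraMap k₁ N c) = algebraMap k₁ N (p g c)
    rw [← hτ]
    exact (AlgEquiv.restrictNormal_commutes τ k₁ c).symm
  let S : Subgroup (bigG p N) := fst.ker
  let Kκ : IntermediateField k κ := FixedPoints.intermediateField S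
  let K : IntermediateField k (AlgebraicClosure k₁) := Kκ.map ε'
  let eK : Kκ ≃ₐ[k] K := IntermediateField.equivMap Kκ ε'
  have heK : ∀ y : Kκ, ((eK y : K) : AlgebraicClosure k₁) = ε' y := fun y => rfl
  let _ : Algebra K κ := ((algebraMap Kκ κ).comp (eK.symm : K →+* Kκ)).toAlgebra
  have hKκ : ∀ y : Kκ, algebraMap K κ (eK y) = y := by
    intro y
    change ((eK.symm (eK y) : Kκ) : κ) = y
    rw [AlgEquiv.symm_apply_apply]
  have hεK : ∀ z : K, ε' (algebraMap K κ z) = z := by
    intro z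
    obtain ⟨y, rfl⟩ := eK.surjective z
    rw [hKκ, heK]
  have htow2 : IsScalarTower k K κ := by
    apply IsScalarTower.of_algebraMap_eq
    intro c
    apply ε'.toRingHom.injective
    change ε' _ = ε' _
    rw [hεK, ε'.commutes]
    rfl
  have hGS : IsGaloisGroup S Kκ κ := inferInstance
  have hGSK : IsGaloisGroup S K κ := IsGaloisGroup.of_ringEquiv S Kκ K κ eK.toRingEquiv
    (fun y => hKκ y)
  have hGq : IsGaloisGroup (bigG p N ⧸ S) k Kκ := inferInstance
  have hgalκ : IsGalois k Kκ := hGq.isGalois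
  have hgal : IsGalois k K := IsGalois.of_algEquiv eK
  have hfdK : FiniteDimensional k K := eK.toLinearEquiv.finiteDimensional
  -- constants
  have hfix : ∀ c : k₁, πN (algebraMap k₁ N c) ∈ Kκ := by
    intro c
    rw [FixedPoints.mem_intermediateField_iff]
    rintro ⟨x, hx⟩
    change x • πN (algebraMap k₁ N c) = πN (algebraMap k₁ N c)
    rw [← hπ]
    congr 1
    have h1 : x.1.2 (algebraMap k₁ N c) = algebraMap k₁ N (p x.1.1 c) := x.2 c
    have h2 : x.1.1 = 1 := hx
    rw [h1, h2, map_one]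
    rfl
  have hmemK : ∀ c : k₁, algebraMap k₁ (AlgebraicClosure k₁) c ∈ K := by
    intro c
    refine ⟨πN (algebraMap k₁ N c), hfix c, ?_⟩
    change ε' _ = _
    rw [hεN, IsScalarTower.algebraMap_apply k₁ N (AlgebraicClosure k₁)]
    rfl
  have hcK : ∀ c : k₁, algebraMap K κ ⟨algebraMap k₁ (AlgebraicClosure k₁) c, hmemK c⟩ =
      πN (algebraMap k₁ N c) := by
    intro c
    apply ε'.toRingHom.injective
    change ε' _ = ε' _
    rw [hεK, hεN]
    exact IsScalarTower.algebraMap_apply k₁ N (AlgebraicClosure k₁) c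
  let Φ : bigG p N ⧸ S ≃* (K ≃ₐ[k] K) :=
    IsGaloisGroup.quotientMulEquiv (bigG p N) (K ≃ₐ[k] K) k K κ S
  have hΦ : ∀ (x : bigG p N) (z : K), algebraMap K κ (Φ (x : bigG p N ⧸ S) z) =
      x • algebraMap K κ z := fun x z =>
    IsGaloisGroup.algebraMap_quotientMulEquiv_smul (bigG p N) (K ≃ₐ[k] K) k K κ S x z
  let Ψ : bigG p N ⧸ S ≃* E := QuotientGroup.quotientKerEquivOfSurjective fst hfst
  have hΨ : ∀ x : bigG p N, Ψ (x : bigG p N ⧸ S) = x.1.1 := fun x => rfl
  refine ⟨K, ⟨hgal, hfdK, Φ.symm.trans Ψ, fun c => ⟨hmemK c, fun σ => ?_⟩⟩, ?_⟩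
  · obtain ⟨q, rfl⟩ := Φ.surjective σ
    obtain ⟨x, rfl⟩ := QuotientGroup.mk_surjective q
    have h1 : (Φ.symm.trans Ψ) (Φ (x : bigG p N ⧸ S)) = x.1.1 := by
      rw [MulEquiv.trans_apply, MulEquiv.symm_apply_apply, hΨ]
    rw [h1]
    have h2 : algebraMap K κ (Φ (x : bigG p N ⧸ S)
        ⟨algebraMap k₁ (AlgebraicClosure k₁) c, hmemK c⟩) =
        algebraMap K κ ⟨algebraMap k₁ (AlgebraicClosure k₁) (p x.1.1 c), hmemK _⟩ := by
      rw [hΦ, hcK, hcK, ← hπ]
      congr 1
      exact x.2 c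
    have h3 := (algebraMap K κ).injective h2
    rw [h3]
  · intro z hzK hzN
    let _ : IsGalois k₁ N := IsGalois.tower_top_of_isGalois k k₁ N
    have hfd1 : FiniteDimensional k₁ N := FiniteDimensional.right k k₁ N
    obtain ⟨y, hy, hyz⟩ := hzK
    have h1 : y = πN ⟨z, hzN⟩ := by
      apply ε'.toRingHom.injective
      change ε' _ = ε' _
      rw [hεN]
      exact hyz
    have h2 : (⟨z, hzN⟩ : N) ∈ (⊥ : IntermediateField k₁ N) := by
      rw [IsGalois.mem_bot_iff_fixed]
      intro τ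
      let x : bigG p N := ⟨(1, τ.restrictScalars k), by
        intro c
        change τ (algebraMap k₁ N c) = _
        rw [τ.commutes, map_one]
        rfl⟩
      have h3 : x • y = y := by
        exact hy ⟨x, rfl⟩
      rw [h1, ← hπ] at h3
      exact πN.toRingHom.injective h3
    rw [IntermediateField.mem_bot] at h2
    obtain ⟨c, hc⟩ := h2
    refine ⟨c, ?_⟩
    rw [IsScalarTower.algebraMap_apply k₁ N (AlgebraicClosure k₁), hc]
    rfl

end Pool.Agent.LibNoether
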