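import Pool.Agent.LibNoether.E1
import Pool.Agent.LibNoether.C1
import Pool.Agent.LibNoether.D1

set_option autoImplicit false
open AlgebraicGeometry CategoryTheory

namespace Pool.Agent.LibNoether

open Pool.Agent.LibHP

/-- Enlarging a finite extension. -/
theorem exists_galois_closure (k k₁ : Type) [Field k] [CharZero k] [Field k₁] [Algebra k k₁]
    [FiniteDimensional k k₁] (k' : IntermediateField k (AlgebraicClosure k₁))
    [FiniteDimensional k k'] :
    ∃ N : IntermediateField k (AlgebraicClosure k₁), IsGalois k N ∧ FiniteDimensional k N ∧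
      k' ≤ N ∧ ∀ c : k₁, algebraMap k₁ (AlgebraicClosure k₁) c ∈ N := by
  have halg : Algebra.IsAlgebraic k (AlgebraicClosure k₁) := Algebra.IsAlgebraic.trans k k₁ _
  let i₁ : k₁ →ₐ[k] AlgebraicClosure k₁ := IsScalarTower.toAlgHom k k₁ (AlgebraicClosure k₁)
  have hfd : FiniteDimensional k i₁.fieldRange :=
    (AlgEquiv.ofInjectiveField i₁).toLinearEquiv.finiteDimensional
  let k'' : IntermediateField k (AlgebraicClosure k₁) := k' ⊔ i₁.fieldRange
  have hfd'' : FiniteDimensional k k'' := IntermediateField.finiteDimensional_sup _ _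
  let N : IntermediateField k (AlgebraicClosure k₁) :=
    IntermediateField.normalClosure k k'' (AlgebraicClosure k₁)
  have hle : k'' ≤ N := IntermediateField.le_normalClosure k''
  have hfdN : FiniteDimensional k N := inferInstance
  have hnN : Normal k N := inferInstance
  refine ⟨N, ⟨⟩, hfdN, le_sup_left.trans hle, fun c => hle (le_sup_right (a := k') ⟨c, rfl⟩)⟩

theorem solutions_of_hilbertProp (k k₁ E : Type) [Field k] [CharZero k] [Field k₁] [Algebra k k₁]
    [FiniteDimensional k k₁] [IsGalois k k₁] [Group E] [Finite E] (d : ℕ)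
    (p : E →* (k₁ ≃ₐ[k] k₁)) (φ : E →* RingAut (MvPolynomial (Fin d) k₁))
    (hφ : Function.Injective φ)
    (hφC : ∀ g c, φ g (MvPolynomial.C c) = MvPolynomial.C (p g c))
    (hφX : ∀ g i, (φ g (MvPolynomial.X i)).IsHomogeneous 1)
    {X : Scheme} (f : X ⟶ Spec (CommRingCat.of k)) [IsIntegral X] [Smooth f]
    (ι : X.functionField →+* FractionRing (MvPolynomial (Fin d) k₁))
    (hι : ∀ c : k, ι (toStalk f (genericPoint X) c) =
      algebraMap k (FractionRing (MvPolynomial (Fin d) k₁)) c)
    (hrange : ∀ z : FractionRing (MvPolynomial (Fin d) k₁), (∃ a : X.functionField, ι a = z) ↔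
      ∃ P Q : MvPolynomial (Fin d) k₁, (∀ g, φ g P = P) ∧ (∀ g, φ g Q = Q) ∧ Q ≠ 0 ∧
        z * algebraMap _ (FractionRing (MvPolynomial (Fin d) k₁)) Q = algebraMap _ _ P)
    (hHP : HilbertProp f) (k' : IntermediateField k (AlgebraicClosure k₁))
    (hk' : FiniteDimensional k k') :
    ∃ K : IntermediateField k (AlgebraicClosure k₁), ProperSolution p K ∧
      ∀ z ∈ K, z ∈ k' → z ∈ Set.range (algebraMap k₁ (AlgebraicClosure k₁)) := by
  obtain ⟨N, hgalN, hfdN, hk'N, hN⟩ := exists_galois_closure k k₁ k'
  let j₁ : k₁ →+* N := (algebraMap k₁ (AlgebraicClosure k₁)).codRestrict N hN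
  let _ : Algebra k₁ N := j₁.toAlgebra
  have htow1 : IsScalarTower k₁ N (AlgebraicClosure k₁) :=
    IsScalarTower.of_algebraMap_eq fun _ => rfl
  have htow : IsScalarTower k k₁ N := by
    apply IsScalarTower.of_algebraMap_eq
    intro c
    apply Subtype.ext
    exact IsScalarTower.algebraMap_apply k k₁ (AlgebraicClosure k₁) c
  have hfinG : Finite (N ≃ₐ[k] N) := inferInstance
  have hfinB : Finite (bigG p N) := inferInstance
  let _ : Algebra X.functionField (RF N d) := ((rfMap (algebraMap k₁ N) d).comp ι).toAlgebra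
  let _ := bigAction (N := N) p φ hφC hφX
  have hGal : IsGaloisGroup (bigG p N) X.functionField (RF N d) :=
    isGaloisGroup_big p φ hφ hφC hφX X.functionField ι hrange
  -- an affine open
  have hnorm : ∀ x : X, ∃ V : X.Opens, IsAffineOpen V ∧ x ∈ V ∧ IsIntegrallyClosed Γ(X, V) := by
    intro x
    obtain ⟨V, hV, hxV, d, ψ, hψ⟩ := exists_etale_chart f x
    refine ⟨V, hV, hxV, ?_⟩
    have hne : Nonempty V := ⟨⟨_, hxV⟩⟩
    let _ := ψ.toAlgebra
    have : Algebra.Etale (MvPolynomial (Fin d) k) Γ(X, V) := hψ
    exact isIntegrallyClosed_of_etale k d Γ(X, V)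
  obtain ⟨W, hW, h1, hWc⟩ := hnorm (genericPoint X)
  have hne : Nonempty W := ⟨⟨_, h1⟩⟩
  have hfr := functionField_isFractionRing_of_isAffineOpen X W hW
  let _ : Algebra k Γ(X, W) := (toSec f W).toAlgebra
  let _ : Algebra Γ(X, W) (RF N d) :=
    ((algebraMap X.functionField (RF N d)).comp (algebraMap Γ(X, W) X.functionField)).toAlgebra
  have htow3 : IsScalarTower Γ(X, W) X.functionField (RF N d) :=
    IsScalarTower.of_algebraMap_eq fun _ => rfl
  obtain ⟨a, ha, H⟩ := exists_residue k Γ(X, W) X.functionField (RF N d) (bigG p N)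
  -- the family of proper subgroups
  obtain ⟨n, ⟨en⟩⟩ := Finite.exists_equiv_fin {S : Subgroup (bigG p N) // S ≠ ⊤}
  have hfdL : FiniteDimensional X.functionField (RF N d) :=
    IsGaloisGroup.finiteDimensional (bigG p N) X.functionField (RF N d)
  obtain ⟨φ₀, hφ₀k, hφ₀a, hφ₀⟩ := exists_point_not_lifting k f hHP n
    (fun i => (FixedPoints.intermediateField (en.symm i).1 :
      IntermediateField X.functionField (RF N d)))
    (fun i => algebraMap X.functionField _)
    (fun i => by
      rw [RingHom.finite_algebraMap]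
      infer_instance)
    (fun i hs => by
      apply (en.symm i).2
      have h2 : (FixedPoints.intermediateField (en.symm i).1 :
          IntermediateField X.functionField (RF N d)) = ⊥ := by
        rw [eq_bot_iff]
        intro z hz
        obtain ⟨c, hc⟩ := hs ⟨z, hz⟩
        exact ⟨c, congrArg Subtype.val hc⟩
      have h3 := IsGaloisGroup.fixingSubgroup_fixedPoints (bigG p N) X.functionField (RF N d)
        (en.symm i).1
      rw [h2, IsGaloisGroup.fixingSubgroup_bot] at h3
      exact h3.symm) W hW h1 a ha
  obtain ⟨κ, _, _, _, π, hκ, hπk, hπG⟩ := H φ₀ hφ₀k hφ₀a (by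
    intro S hS τ
    by_contra hcon
    push Not at hcon
    obtain ⟨i, rfl⟩ : ∃ i, (en.symm i).1 = S := ⟨en ⟨S, hS⟩, by simp⟩
    have h2 := hφ₀ i
    have hmap : ∀ x : (FixedPoints.intermediateField (en.symm i).1 :
        IntermediateField X.functionField (RF N d)),
        (letI := ((algebraMap X.functionField (FixedPoints.intermediateField (en.symm i).1 :
          IntermediateField X.functionField (RF N d))).comp
            (X.presheaf.germ W _ h1).hom).toAlgebra
        IsIntegral Γ(X, W) x) → IsIntegral Γ(X, W) x := fun x hx => hx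
    let _ := ((algebraMap X.functionField (FixedPoints.intermediateField (en.symm i).1 :
          IntermediateField X.functionField (RF N d))).comp
            (X.presheaf.germ W _ h1).hom).toAlgebra
    obtain ⟨s, hs⟩ := h2 (τ.comp
      { toFun := fun x => ⟨x.1, hmap x.1 x.2⟩
        map_one' := rfl
        map_mul' := fun _ _ => rfl
        map_zero' := rfl
        map_add' := fun _ _ => rfl })
    exact hs (hcon s))
  -- the constants
  have htow4 : IsScalarTower k Γ(X, W) (RF N d) := by
    apply IsScalarTower.of_algebraMap_eq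
    intro c
    change _ = rfMap (algebraMap k₁ N) d (ι (X.presheaf.germ W _ h1 (toSec f W c)))
    have h2 : X.presheaf.germ W _ h1 (toSec f W c) = toStalk f (genericPoint X) c := by
      have h3 : f.appLE ⊤ W le_top ≫ X.presheaf.germ W _ h1 =
          f.appTop ≫ X.presheaf.germ ⊤ _ trivial := by
        rw [Scheme.Hom.appLE, Category.assoc, TopCat.Presheaf.germ_res]
        rfl
      exact congrArg (fun q => q ((Scheme.ΓSpecIso (CommRingCat.of k)).inv c)) h3
    rw [h2, hι, IsScalarTower.algebraMap_apply k (MvPolynomial (Fin d) k₁) (RF k₁ d),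
      rfMap_algebraMap, IsScalarTower.algebraMap_apply k k₁ (MvPolynomial (Fin d) k₁),
      MvPolynomial.algebraMap_eq, MvPolynomial.map_C,
      ← IsScalarTower.algebraMap_apply k k₁ N,
      IsScalarTower.algebraMap_apply k N (RF N d),
      IsScalarTower.algebraMap_apply N (MvPolynomial (Fin d) N) (RF N d),
      MvPolynomial.algebraMap_eq]
  have hconst : ∀ m : N, IsIntegral Γ(X, W) (algebraMap N (RF N d) m) := by
    intro m
    have h2 : IsIntegral k m := (Algebra.IsAlgebraic.isAlgebraic m).isIntegral
    exact (h2.map (IsScalarTower.toAlgHom k N (RF N d))).tower_top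
  let πN : N →ₐ[k] κ :=
    { toFun := fun m => π ⟨algebraMap N (RF N d) m, hconst m⟩
      map_one' := by
        rw [← map_one π]
        congr 1
        exact Subtype.ext (map_one _)
      map_mul' := by
        intro x y
        rw [← map_mul π]
        congr 1
        exact Subtype.ext (map_mul _ _ _)
      map_zero' := by
        rw [← map_zero π]
        congr 1
        exact Subtype.ext (map_zero _)
      map_add' := by
        intro x y
        rw [← map_add π]
        congr 1
        exact Subtype.ext (map_add _ _ _)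
      commutes' := by
        intro c
        rw [← hπk]
        congr 1
        apply Subtype.ext
        change algebraMap N (RF N d) (algebraMap k N c) =
          algebraMap Γ(X, W) (RF N d) (algebraMap k Γ(X, W) c)
        rw [← IsScalarTower.algebraMap_apply k N (RF N d),
          ← IsScalarTower.algebraMap_apply k Γ(X, W) (RF N d)] }
  obtain ⟨K, hK, hK2⟩ := exists_solution_of_residue p N κ πN (by
    intro x m
    apply hπG
    change algebraMap N (RF N d) (x.1.2 m) = bigF p φ hφC hφX x (algebraMap N (RF N d) m)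
    rw [IsScalarTower.algebraMap_apply N (MvPolynomial (Fin d) N) (RF N d),
      IsScalarTower.algebraMap_apply N (MvPolynomial (Fin d) N) (RF N d),
      MvPolynomial.algebraMap_eq, bigF_algebraMap, bigHom_C])
  exact ⟨K, hK, fun z hz hz' => hK2 z hz (hk'N hz')⟩

end Pool.Agent.LibNoether
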