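import Mathlib

set_option autoImplicit false

namespace Pool.Agent.LibNoether

/-- `ProperSolution p K`: the subfield `K` of the algebraic closure of `k₁` is a finite Galois
extension of `k` containing `k₁`, and there is an isomorphism of its Galois group over `k` with the
group `E` under which the restriction of automorphisms from `K` to `k₁` becomes the homomorphism
`p`. (When `k₁ = k` this says that `K` is a Galois extension of `k` with Galois group isomorphic
to `E`.) -/
def ProperSolution {k k₁ E : Type} [Field k] [Field k₁] [Algebra k k₁] [Group E]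
    (p : E →* (k₁ ≃ₐ[k] k₁)) (K : IntermediateField k (AlgebraicClosure k₁)) : Prop :=
  IsGalois k K ∧ FiniteDimensional k K ∧
    ∃ e : (K ≃ₐ[k] K) ≃* E, ∀ c : k₁, ∃ hc : algebraMap k₁ (AlgebraicClosure k₁) c ∈ K,
      ∀ σ : K ≃ₐ[k] K, ((σ ⟨algebraMap k₁ (AlgebraicClosure k₁) c, hc⟩ : K) :
        AlgebraicClosure k₁) = algebraMap k₁ (AlgebraicClosure k₁) (p (e σ) c)

end Pool.Agent.LibNoether
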