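import Mathlib

set_option autoImplicit false

namespace Pool.Agent.LibNoether

/-! ### Hilbert's theorem 90 for the general linear group (Speiser) -/

theorem speiser {E K : Type} [Group E] [Finite E] [Field K] [MulSemiringAction E K]
    [FaithfulSMul E K] (d : ℕ) (M : E → Matrix (Fin d) (Fin d) K) (h1 : M 1 = 1)
    (hM : ∀ g h, M (g * h) = (M h).map (fun z => g • z) * M g) :
    ∃ D D' : Matrix (Fin d) (Fin d) K, D * D' = 1 ∧ D' * D = 1 ∧
      ∀ g, D.map (fun z => g • z) = M g * D := by
  classical
  have := Fintype.ofFinite E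
  have hinv : ∀ g, IsUnit (M g).det := by
    intro g
    have h2 := hM g g⁻¹
    rw [mul_inv_cancel, h1] at h2
    have h3 := congrArg Matrix.det h2
    rw [Matrix.det_one, Matrix.det_mul] at h3
    exact IsUnit.of_mul_eq_one _ (by rw [mul_comm]; exact h3.symm)
  -- the averaged vectors
  let Dv : (Fin d → K) → (Fin d → K) := fun c => ∑ h : E, (M h)⁻¹.mulVec (fun i => h • c i)
  have hDv : ∀ (g : E) (c : Fin d → K), (fun i => g • Dv c i) = (M g).mulVec (Dv c) := by
    intro g c
    have hmap : ∀ (A : Matrix (Fin d) (Fin d) K) (v : Fin d → K),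
        (fun i => g • (A.mulVec v) i) = (A.map (fun z => g • z)).mulVec (fun i => g • v i) := by
      intro A v
      funext i
      simp only [Matrix.mulVec, dotProduct, Finset.smul_sum, smul_mul', Matrix.map_apply]
    have hsum : (fun i => g • Dv c i) =
        ∑ h : E, (fun i => g • ((M h)⁻¹.mulVec (fun i => h • c i)) i) := by
      funext i
      simp only [Dv, Finset.sum_apply, Finset.smul_sum]
    rw [hsum, Matrix.mulVec_sum, ← Equiv.sum_comp (Equiv.mulLeft g)
      (fun h => (M g).mulVec ((M h)⁻¹.mulVec (fun i => h • c i)))]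
    refine Finset.sum_congr rfl fun h _ => ?_
    rw [hmap, Equiv.coe_mulLeft, Matrix.mulVec_mulVec]
    have h2 : ((M h)⁻¹).map (fun z => g • z) = M g * (M (g * h))⁻¹ := by
      have h3 : (M h).map (fun z => g • z) * ((M h)⁻¹).map (fun z => g • z) = 1 := by
        have h4 := (Matrix.map_mul (L := M h) (M := (M h)⁻¹)
          (f := MulSemiringAction.toRingHom E K g)).symm
        have h5 : (M h) * (M h)⁻¹ = 1 := Matrix.mul_nonsing_inv _ (hinv h)
        rw [h5] at h4
        refine Eq.trans h4 ?_
        exact Matrix.map_one _ (map_zero (MulSemiringAction.toRingHom E K g))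
          (map_one (MulSemiringAction.toRingHom E K g))
      rw [hM g h, Matrix.mul_inv_rev, ← mul_assoc, Matrix.mul_nonsing_inv _ (hinv g), one_mul]
      exact (Matrix.inv_eq_right_inv h3).symm
    rw [h2]
    congr 1
    funext i
    exact (mul_smul g h (c i)).symm
  -- they span
  have hspan : Submodule.span K (Set.range Dv) = ⊤ := by
    by_contra hne
    obtain ⟨u, hu0, hu⟩ := Submodule.exists_le_ker_of_lt_top _ (lt_top_iff_ne_top.mpr hne)
    apply hu0
    have hzero : ∀ (i : Fin d) (a : K), u (Dv (Pi.single i a)) = 0 := by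
      intro i a
      exact hu (Submodule.subset_span ⟨_, rfl⟩)
    have hinj : Function.Injective
        (fun g : E => ((MulSemiringAction.toRingHom E K g : K →+* K) : K →* K)) := by
      intro g h hgh
      apply eq_of_smul_eq_smul (α := K)
      intro a
      exact DFunLike.congr_fun hgh a
    have hli := (linearIndependent_monoidHom K K).comp _ hinj
    rw [Fintype.linearIndependent_iff] at hli
    apply (Pi.basisFun K (Fin d)).ext
    intro i
    have h6 := hli (fun h => u ((M h)⁻¹.mulVec (Pi.single i 1))) (by
      funext a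
      have h7 := hzero i a
      simp only [Dv, map_sum] at h7
      simp only [Finset.sum_apply, Pi.smul_apply, Function.comp, smul_eq_mul, Pi.zero_apply]
      rw [← h7]
      refine Finset.sum_congr rfl fun h _ => ?_
      have h8 : (fun j => h • (Pi.single i a : Fin d → K) j) = (h • a) • Pi.single i (1 : K) := by
        funext j
        by_cases hij : j = i
        · subst hij; simp
        · simp [Pi.single_apply, hij]
      rw [h8, Matrix.mulVec_smul, map_smul, smul_eq_mul, mul_comm]
      rfl) 1
    rw [h1, inv_one, Matrix.one_mulVec] at h6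
    rw [Pi.basisFun_apply, h6]
    rfl
  -- choose a basis
  obtain ⟨b, hb⟩ : ∃ b : Module.Basis (Fin d) K (Fin d → K), ∀ j, b j ∈ Set.range Dv := by
    let b₀ := Module.Basis.ofSpan hspan.ge
    refine ⟨b₀.reindex (b₀.indexEquiv (Pi.basisFun K (Fin d))), fun j => ?_⟩
    rw [Module.Basis.reindex_apply]
    exact Module.Basis.ofSpan_subset hspan.ge ⟨_, rfl⟩
  choose c hc using hb
  let B : Matrix (Fin d) (Fin d) K := Matrix.of fun i j => b j i
  have hB : B = (Pi.basisFun K (Fin d)).toMatrix b := by
    ext i j
    simp [B, Module.Basis.toMatrix_apply]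
  have hBu : IsUnit B.det := by
    rw [hB]
    exact ((Pi.basisFun K (Fin d)).is_basis_iff_det).mp ⟨b.linearIndependent, b.span_eq⟩
  refine ⟨B, B⁻¹, Matrix.mul_nonsing_inv _ hBu, Matrix.nonsing_inv_mul _ hBu, ?_⟩
  · intro g
    ext i j
    have := congrFun (hDv g (c j)) i
    rw [hc] at this
    exact this

end Pool.Agent.LibNoether
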