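import Pool.Agent.LibHP.F2

set_option autoImplicit false
open Polynomial

namespace Pool.Agent.LibNoether

open Pool.Agent.LibHP (RF)

/-! ### Rational function fields and change of coefficients -/

/-- The map of rational function fields induced by a map of the coefficient fields. -/
noncomputable def rfMap {A B : Type} [Field A] [Field B] (f : A →+* B) (d : ℕ) :
    RF A d →+* RF B d :=
  IsFractionRing.lift (A := MvPolynomial (Fin d) A)
    (g := (algebraMap (MvPolynomial (Fin d) B) (RF B d)).comp (MvPolynomial.map f))
    (by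
      rw [RingHom.coe_comp]
      exact (IsFractionRing.injective _ _).comp (MvPolynomial.map_injective f f.injective))

section rfMap

variable {A B C : Type} [Field A] [Field B] [Field C] (f : A →+* B) (g : B →+* C) (d : ℕ)

@[simp] theorem rfMap_algebraMap (P : MvPolynomial (Fin d) A) :
    rfMap f d (algebraMap _ (RF A d) P) = algebraMap _ (RF B d) (MvPolynomial.map f P) :=
  IsFractionRing.lift_algebraMap _ _

theorem rf_hom_ext {L : Type} [Field L] {u v : RF A d →+* L}
    (h : ∀ P : MvPolynomial (Fin d) A, u (algebraMap _ _ P) = v (algebraMap _ _ P)) : u = v := by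
  ext z
  obtain ⟨P, Q, hQ, rfl⟩ := IsFractionRing.div_surjective (MvPolynomial (Fin d) A) z
  rw [map_div₀, map_div₀, h, h]

theorem rf_hom_ext' {L : Type} [Field L] {u v : RF A d →+* L}
    (hC : ∀ c : A, u (algebraMap (MvPolynomial (Fin d) A) _ (MvPolynomial.C c)) =
      v (algebraMap (MvPolynomial (Fin d) A) _ (MvPolynomial.C c)))
    (hX : ∀ i : Fin d, u (algebraMap (MvPolynomial (Fin d) A) _ (MvPolynomial.X i)) =
      v (algebraMap (MvPolynomial (Fin d) A) _ (MvPolynomial.X i))) :
    u = v := by
  apply rf_hom_ext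
  intro P
  have : u.comp (algebraMap (MvPolynomial (Fin d) A) (RF A d)) =
      v.comp (algebraMap (MvPolynomial (Fin d) A) (RF A d)) :=
    MvPolynomial.ringHom_ext (fun c => hC c) (fun i => hX i)
  exact congrArg (fun q => q P) this

theorem rfMap_comp : (rfMap g d).comp (rfMap f d) = rfMap (g.comp f) d := by
  apply rf_hom_ext
  intro P
  rw [RingHom.comp_apply, rfMap_algebraMap, rfMap_algebraMap, rfMap_algebraMap,
    MvPolynomial.map_map]

theorem rfMap_rfMap (z : RF A d) : rfMap g d (rfMap f d z) = rfMap (g.comp f) d z :=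
  congrArg (fun q => q z) (rfMap_comp f g d)

@[simp] theorem rfMap_id (z : RF A d) : rfMap (RingHom.id A) d z = z := by
  have : rfMap (RingHom.id A) d = RingHom.id _ := by
    apply rf_hom_ext
    intro P
    rw [rfMap_algebraMap, MvPolynomial.map_id, RingHom.id_apply]
  rw [this]; rfl

end rfMap

section galois

variable {K₀ K : Type} [Field K₀] [Field K] [Algebra K₀ K] (d : ℕ)

/-- The coefficientwise action of the Galois group on polynomials. -/
@[instance_reducible] noncomputable def coeffAction : MulSemiringAction (K ≃ₐ[K₀] K) (MvPolynomial (Fin d) K) where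
  smul σ P := MvPolynomial.map (σ : K →+* K) P
  one_smul P := by
    change MvPolynomial.map _ P = P
    exact MvPolynomial.map_id P
  mul_smul σ τ P := by
    change MvPolynomial.map _ P = MvPolynomial.map _ (MvPolynomial.map _ P)
    rw [MvPolynomial.map_map]
    rfl
  smul_zero σ := map_zero (MvPolynomial.map (σ : K →+* K))
  smul_add σ := map_add (MvPolynomial.map (σ : K →+* K))
  smul_one σ := map_one (MvPolynomial.map (σ : K →+* K))
  smul_mul σ := map_mul (MvPolynomial.map (σ : K →+* K))

/-- The coefficientwise action of the Galois group on rational functions. -/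
@[instance_reducible] noncomputable def rfAction : MulSemiringAction (K ≃ₐ[K₀] K) (RF K d) where
  smul σ z := rfMap (σ : K →+* K) d z
  one_smul z := by
    change rfMap _ d z = z
    exact rfMap_id d z
  mul_smul σ τ z := by
    change rfMap _ d z = rfMap _ d (rfMap _ d z)
    rw [rfMap_rfMap]
    rfl
  smul_zero σ := map_zero (rfMap (σ : K →+* K) d)
  smul_add σ := map_add (rfMap (σ : K →+* K) d)
  smul_one σ := map_one (rfMap (σ : K →+* K) d)
  smul_mul σ := map_mul (rfMap (σ : K →+* K) d)

/-- The Galois group of `K / K₀` is the Galois group of the rational function fields. -/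
theorem isGaloisGroup_rf [IsGalois K₀ K] [FiniteDimensional K₀ K] :
    letI := (rfMap (algebraMap K₀ K) d).toAlgebra
    letI := rfAction (K₀ := K₀) (K := K) d
    IsGaloisGroup (K ≃ₐ[K₀] K) (RF K₀ d) (RF K d) := by
  let _ := (rfMap (algebraMap K₀ K) d).toAlgebra
  let _ := rfAction (K₀ := K₀) (K := K) d
  let _ := coeffAction (K₀ := K₀) (K := K) d
  let _ : Algebra (MvPolynomial (Fin d) K₀) (MvPolynomial (Fin d) K) :=
    (MvPolynomial.map (algebraMap K₀ K)).toAlgebra
  have htow : IsScalarTower (MvPolynomial (Fin d) K₀) (RF K₀ d) (RF K d) := by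
    apply IsScalarTower.of_algebraMap_eq
    intro P
    rw [IsScalarTower.algebraMap_apply (MvPolynomial (Fin d) K₀) (MvPolynomial (Fin d) K) (RF K d)]
    exact (rfMap_algebraMap _ d P).symm
  have hdist : SMulDistribClass (K ≃ₐ[K₀] K) (MvPolynomial (Fin d) K) (RF K d) := by
    constructor
    intro σ P z
    rw [Algebra.smul_def, Algebra.smul_def]
    change rfMap _ d _ = _ * rfMap _ d _
    rw [map_mul, rfMap_algebraMap]
    rfl
  have hgal : IsGaloisGroup (K ≃ₐ[K₀] K) (MvPolynomial (Fin d) K₀) (MvPolynomial (Fin d) K) := by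
    refine ⟨⟨?_⟩, ⟨?_⟩, ⟨?_⟩⟩
    · intro σ τ h
      ext c
      have := h (MvPolynomial.C c)
      change MvPolynomial.map _ _ = MvPolynomial.map _ _ at this
      rw [MvPolynomial.map_C, MvPolynomial.map_C] at this
      exact MvPolynomial.C_injective _ _ this
    · intro σ a P
      rw [Algebra.smul_def, Algebra.smul_def]
      change MvPolynomial.map _ _ = _ * MvPolynomial.map _ _
      rw [map_mul]
      congr 1
      change MvPolynomial.map _ (MvPolynomial.map _ a) = MvPolynomial.map _ a
      rw [MvPolynomial.map_map]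
      have h : (σ : K →+* K).comp (algebraMap K₀ K) = algebraMap K₀ K :=
        RingHom.ext fun c => σ.commutes c
      exact congrArg (fun q => MvPolynomial.map q a) h
    · intro P hP
      have hcoef : ∀ m, P.coeff m ∈ Set.range (algebraMap K₀ K) := by
        intro m
        have h1 : ∀ σ : K ≃ₐ[K₀] K, σ (P.coeff m) = P.coeff m := by
          intro σ
          exact (MvPolynomial.coeff_map (σ : K →+* K) P m).symm.trans
            (congrArg (MvPolynomial.coeff m) (hP σ))
        have h2 : P.coeff m ∈ (⊥ : IntermediateField K₀ K) :=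
          (IsGalois.mem_bot_iff_fixed _).mpr h1
        exact IntermediateField.mem_bot.mp h2
      have : P ∈ Set.range (MvPolynomial.map (σ := Fin d) (algebraMap K₀ K)) := by
        rw [MvPolynomial.mem_range_map_iff_coeffs_subset]
        intro c hc
        rw [Finset.mem_coe, MvPolynomial.mem_coeffs_iff] at hc
        obtain ⟨m, _, rfl⟩ := hc
        exact hcoef m
      exact this
  exact @IsGaloisGroup.to_isFractionRing (K ≃ₐ[K₀] K) (MvPolynomial (Fin d) K₀)
    (MvPolynomial (Fin d) K) (RF K₀ d) (RF K d) _ _ _ _ _ _ _ _ _ _ _ _ _ _ _ _ hdist _ _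

/-- The rational functions with coefficients in `K` which are invariant under the coefficientwise
action of the Galois group are the rational functions with coefficients in `K₀`. -/
theorem mem_range_rfMap [IsGalois K₀ K] [FiniteDimensional K₀ K] (z : RF K d)
    (h : ∀ σ : K ≃ₐ[K₀] K, rfMap (σ : K →+* K) d z = z) :
    ∃ w : RF K₀ d, rfMap (algebraMap K₀ K) d w = z := by
  let _ := (rfMap (algebraMap K₀ K) d).toAlgebra
  let _ := rfAction (K₀ := K₀) (K := K) d
  have := isGaloisGroup_rf (K₀ := K₀) (K := K) d
  exact this.isInvariant.isInvariant z h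

/-- If the only constants in the field generated by `β` over `K₀(x)` are those of `K₀` then `β`
lies in `K₀(x)`. -/
theorem mem_range_of_constants [IsGalois K₀ K] [FiniteDimensional K₀ K] (β : RF K d)
    (h : letI := (rfMap (algebraMap K₀ K) d).toAlgebra
      ∀ c : K, algebraMap K (RF K d) c ∈ IntermediateField.adjoin (RF K₀ d) {β} →
        c ∈ Set.range (algebraMap K₀ K)) :
    ∃ w : RF K₀ d, rfMap (algebraMap K₀ K) d w = β := by
  let _ := (rfMap (algebraMap K₀ K) d).toAlgebra
  let _ := rfAction (K₀ := K₀) (K := K) d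
  have hG := isGaloisGroup_rf (K₀ := K₀) (K := K) d
  set L := IntermediateField.adjoin (RF K₀ d) {β} with hL
  let H : Subgroup (K ≃ₐ[K₀] K) := fixingSubgroup (K ≃ₐ[K₀] K) (L : Set (RF K d))
  have hHL : FixedPoints.intermediateField H = L :=
    IsGaloisGroup.fixedPoints_fixingSubgroup (K ≃ₐ[K₀] K) (RF K₀ d) (RF K d) L
  have hH : H = ⊤ := by
    have h1 : IntermediateField.fixedField H = (⊥ : IntermediateField K₀ K) := by
      rw [eq_bot_iff]
      intro c hc
      rw [IntermediateField.mem_bot]
      apply h c
      rw [← hHL, FixedPoints.mem_intermediateField_iff]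
      rintro ⟨σ, hσ⟩
      have h2 : σ c = c := hc ⟨σ, hσ⟩
      change rfMap (σ : K →+* K) d (algebraMap K (RF K d) c) = _
      rw [IsScalarTower.algebraMap_apply K (MvPolynomial (Fin d) K) (RF K d), rfMap_algebraMap,
        MvPolynomial.algebraMap_eq, MvPolynomial.map_C]
      congr 2
    have h3 := IntermediateField.fixingSubgroup_fixedField H
    rw [h1, IntermediateField.fixingSubgroup_bot] at h3
    exact h3.symm
  have h4 : L = ⊥ := by
    rw [← hHL, hH]
    exact IsGaloisGroup.fixedPoints_top (K ≃ₐ[K₀] K) (RF K₀ d) (RF K d)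
  have h5 : β ∈ L := IntermediateField.mem_adjoin_simple_self _ β
  rw [h4, IntermediateField.mem_bot] at h5
  exact h5

end galois

end Pool.Agent.LibNoether
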