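import Pool.Agent.LibNoether.N2

set_option autoImplicit false
open Polynomial

namespace Pool.Agent.LibNoether

open Pool.Agent.LibHP (RF)

/-- Two embeddings of a normal extension have the same image. -/
theorem mem_range_of_normal {k₁ K Ω : Type} [Field k₁] [Field K] [Field Ω] [Algebra k₁ K]
    [Algebra k₁ Ω] [Normal k₁ K] (u v : K →ₐ[k₁] Ω) (c : K) : ∃ c', v c' = u c := by
  let e : K ≃ₐ[k₁] v.fieldRange := AlgEquiv.ofInjectiveField v
  have hn : Normal k₁ v.fieldRange := Normal.of_algEquiv e
  have h := AlgHom.fieldRange_of_normal (u.comp (e.symm : v.fieldRange →ₐ[k₁] K))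
  have h1 : u c ∈ (u.comp (e.symm : v.fieldRange →ₐ[k₁] K)).fieldRange := by
    refine ⟨e c, ?_⟩
    change u (e.symm (e c)) = u c
    rw [AlgEquiv.symm_apply_apply]
  rw [h] at h1
  exact h1

/-- If `β` is a root of a polynomial over `k₁(x)` whose roots lie in `M`, and the constants of `M`
in `K` are those of `k₁`, then `β` lies in `k₁(x)`. -/
theorem mem_range_of_root {k₁ K : Type} [Field k₁] [Field K] [Algebra k₁ K] [IsGalois k₁ K]
    [FiniteDimensional k₁ K] (d : ℕ)
    (M : IntermediateField (RF k₁ d) (AlgebraicClosure (RF k₁ d)))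
    (v : K →ₐ[k₁] AlgebraicClosure (RF k₁ d))
    (hv : ∀ c : K, v c ∈ M → c ∈ Set.range (algebraMap k₁ K))
    (m : (RF k₁ d)[X])
    (hm : ∀ z : AlgebraicClosure (RF k₁ d), m.eval₂ (algebraMap _ _) z = 0 → z ∈ M)
    (β : RF K d) (hβ : m.eval₂ (rfMap (algebraMap k₁ K) d) β = 0) :
    ∃ w : RF k₁ d, rfMap (algebraMap k₁ K) d w = β := by
  apply mem_range_of_constants
  let _ := (rfMap (algebraMap k₁ K) d).toAlgebra
  intro c hc
  have hfd : FiniteDimensional (RF k₁ d) (RF K d) := by
    let _ := rfAction (K₀ := k₁) (K := K) d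
    have := isGaloisGroup_rf (K₀ := k₁) (K := K) d
    exact this.finiteDimensional
  let i₀ : RF K d →ₐ[RF k₁ d] AlgebraicClosure (RF k₁ d) := IsAlgClosed.lift
  have hβM : i₀ β ∈ M := by
    apply hm
    have h1 := congrArg (i₀ : RF K d →+* AlgebraicClosure (RF k₁ d)) hβ
    rw [Polynomial.hom_eval₂, map_zero] at h1
    have h2 : (i₀ : RF K d →+* AlgebraicClosure (RF k₁ d)).comp (rfMap (algebraMap k₁ K) d) =
        algebraMap (RF k₁ d) (AlgebraicClosure (RF k₁ d)) := RingHom.ext fun z => i₀.commutes z
    rw [h2] at h1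
    exact h1
  have hle : IntermediateField.adjoin (RF k₁ d) {β} ≤ M.comap i₀ := by
    rw [IntermediateField.adjoin_simple_le_iff]
    exact hβM
  have hcM : i₀ (algebraMap K (RF K d) c) ∈ M := hle hc
  let u : K →ₐ[k₁] AlgebraicClosure (RF k₁ d) :=
    { toRingHom := (i₀ : RF K d →+* AlgebraicClosure (RF k₁ d)).comp (algebraMap K (RF K d))
      commutes' := by
        intro a
        change i₀ (algebraMap K (RF K d) (algebraMap k₁ K a)) = _
        rw [IsScalarTower.algebraMap_apply k₁ (RF k₁ d) (AlgebraicClosure (RF k₁ d)),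
          ← i₀.commutes]
        congr 1
        change _ = rfMap (algebraMap k₁ K) d (algebraMap k₁ (RF k₁ d) a)
        rw [IsScalarTower.algebraMap_apply k₁ (MvPolynomial (Fin d) k₁) (RF k₁ d),
          rfMap_algebraMap, MvPolynomial.algebraMap_eq, MvPolynomial.map_C,
          IsScalarTower.algebraMap_apply K (MvPolynomial (Fin d) K) (RF K d),
          MvPolynomial.algebraMap_eq] }
  obtain ⟨c', hc'⟩ := mem_range_of_normal u v c
  obtain ⟨a, ha⟩ := hv c' (by rw [hc']; exact hcM)
  refine ⟨a, ?_⟩
  apply u.toRingHom.injective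
  change u _ = u _
  rw [← hc', ← ha, u.commutes, v.commutes]

/-- The constants of a finite extension of `k₁(x)` are finite over `k`. -/
theorem exists_constants (k k₁ : Type) [Field k] [Field k₁] [Algebra k k₁] [FiniteDimensional k k₁]
    (d : ℕ) (M : IntermediateField (RF k₁ d) (AlgebraicClosure (RF k₁ d)))
    [FiniteDimensional (RF k₁ d) M]
    (v : AlgebraicClosure k₁ →ₐ[k₁] AlgebraicClosure (RF k₁ d)) :
    ∃ k' : IntermediateField k (AlgebraicClosure k₁), FiniteDimensional k k' ∧
      ∀ z, v z ∈ M → z ∈ k' := by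
  let k'' : IntermediateField k₁ (AlgebraicClosure k₁) := (M.restrictScalars k₁).comap v
  have h1 : Algebra.EssFiniteType k₁ (RF k₁ d) := inferInstance
  have h2 : Algebra.EssFiniteType (RF k₁ d) M := inferInstance
  have h3 : Algebra.EssFiniteType k₁ M := Algebra.EssFiniteType.comp k₁ (RF k₁ d) M
  have h4 := LibHP.finiteDimensional_algebraicClosure k₁ M
  have h10 : IsScalarTower k₁ M (AlgebraicClosure (RF k₁ d)) :=
    IsScalarTower.of_algebraMap_eq fun _ => rfl
  have hmem : ∀ z : k'', v z ∈ M := fun z => z.2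
  let j : k'' →ₗ[k₁] algebraicClosure k₁ M :=
    { toFun := fun z => ⟨⟨v z, hmem z⟩, by
        have h5 : IsAlgebraic k₁ (z : AlgebraicClosure k₁) := Algebra.IsAlgebraic.isAlgebraic _
        have h6 : IsAlgebraic k₁ (v z) := h5.algHom v
        rw [mem_algebraicClosure_iff]
        exact (isAlgebraic_algebraMap_iff (R := k₁) (S := M)
          (FaithfulSMul.algebraMap_injective M (AlgebraicClosure (RF k₁ d)))).mp h6⟩
      map_add' := by
        intro x y
        ext
        exact map_add v _ _
      map_smul' := by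
        intro c x
        ext
        exact map_smul v c _ }
  have hj : Function.Injective j := by
    intro x y hxy
    have h7 : v x = v y := congrArg (fun t => ((t : algebraicClosure k₁ M) : M).1) hxy
    exact Subtype.ext (v.toRingHom.injective h7)
  have h8 : FiniteDimensional k₁ k'' := FiniteDimensional.of_injective j hj
  have h9 : FiniteDimensional k k'' := FiniteDimensional.trans k k₁ k''
  exact ⟨k''.restrictScalars k, h9, fun z hz => hz⟩

end Pool.Agent.LibNoether
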