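import Pool.Agent.LibNoether.N0
import Pool.Agent.LibNoether.N1
import Pool.Agent.LibNoether.N3

set_option autoImplicit false
open Polynomial

namespace Pool.Agent.LibNoether

open Pool.Agent.LibHP (RF)

/-! ### Linear substitutions -/

section linSub

variable {K : Type} [Field K] {d : ℕ}

/-- The linear substitution given by a matrix. -/
noncomputable def linSub (D : Matrix (Fin d) (Fin d) K) :
    MvPolynomial (Fin d) K →ₐ[K] MvPolynomial (Fin d) K :=
  MvPolynomial.aeval fun i => ∑ j, MvPolynomial.C (D i j) * MvPolynomial.X j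

theorem linSub_X (D : Matrix (Fin d) (Fin d) K) (i : Fin d) :
    linSub D (MvPolynomial.X i) = ∑ j, MvPolynomial.C (D i j) * MvPolynomial.X j :=
  MvPolynomial.aeval_X _ i

theorem linSub_C (D : Matrix (Fin d) (Fin d) K) (c : K) :
    linSub D (MvPolynomial.C c) = MvPolynomial.C c :=
  MvPolynomial.aeval_C _ c

theorem linSub_comp (D D' : Matrix (Fin d) (Fin d) K) :
    (linSub D).comp (linSub D') = linSub (D' * D) := by
  apply MvPolynomial.algHom_ext
  intro i
  rw [AlgHom.comp_apply, linSub_X, linSub_X, map_sum]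
  simp only [map_mul, linSub_C, linSub_X, Matrix.mul_apply, map_sum, Finset.sum_mul,
    Finset.mul_sum]
  rw [Finset.sum_comm]
  refine Finset.sum_congr rfl fun _ _ => Finset.sum_congr rfl fun _ _ => ?_
  ring

theorem linSub_one : linSub (1 : Matrix (Fin d) (Fin d) K) = AlgHom.id K _ := by
  apply MvPolynomial.algHom_ext
  intro i
  rw [linSub_X, AlgHom.id_apply]
  simp [Matrix.one_apply]

/-- The automorphism of the rational function field given by an invertible matrix. -/
theorem exists_linSub_equiv (D D' : Matrix (Fin d) (Fin d) K) (h : D * D' = 1) (h' : D' * D = 1) :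
    ∃ s : RF K d ≃+* RF K d, ∀ P : MvPolynomial (Fin d) K,
      s (algebraMap _ _ P) = algebraMap _ _ (linSub D P) := by
  let e : MvPolynomial (Fin d) K ≃ₐ[K] MvPolynomial (Fin d) K :=
    AlgEquiv.ofAlgHom (linSub D) (linSub D') (by rw [linSub_comp, h', linSub_one])
      (by rw [linSub_comp, h, linSub_one])
  refine ⟨IsFractionRing.ringEquivOfRingEquiv e.toRingEquiv, fun P => ?_⟩
  exact IsFractionRing.ringEquivOfRingEquiv_algebraMap _ P

end linSub

/-- Lifting homomorphisms of fields. -/
theorem exists_lift {A B C : Type} [Field A] [Field B] [Field C] (i : A →+* C) (u : B →+* C)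
    (h : ∀ b, ∃ a, i a = u b) : ∃ E : B →+* A, ∀ b, i (E b) = u b := by
  let e : A ≃+* i.range := RingEquiv.ofBijective i.rangeRestrict
    ⟨fun x y hxy => i.injective (congrArg Subtype.val hxy), i.rangeRestrict_surjective⟩
  refine ⟨(e.symm : i.range →+* A).comp (u.codRestrict i.range h), fun b => ?_⟩
  exact congrArg Subtype.val (e.apply_symm_apply ((u.codRestrict i.range h) b))

section main

variable {k k₁ E : Type} [Field k] [Field k₁] [Algebra k k₁] [Group E] [Finite E] {d : ℕ}
  (p : E →* (k₁ ≃ₐ[k] k₁)) (φ : E →* RingAut (MvPolynomial (Fin d) k₁))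

/-- The action of `E` on the rational function field. -/
noncomputable def phiF (g : E) : RF k₁ d ≃+* RF k₁ d :=
  IsFractionRing.ringEquivOfRingEquiv (φ g : MvPolynomial (Fin d) k₁ ≃+* MvPolynomial (Fin d) k₁)

omit [Finite E] in
theorem phiF_algebraMap (g : E) (P : MvPolynomial (Fin d) k₁) :
    phiF φ g (algebraMap _ _ P) = algebraMap _ _ (φ g P) :=
  IsFractionRing.ringEquivOfRingEquiv_algebraMap _ P

/-- Invariant rational functions are quotients of invariant polynomials. -/
theorem exists_invariant_quotient (w : RF k₁ d) (hw : ∀ g, phiF φ g w = w) :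
    ∃ P Q : MvPolynomial (Fin d) k₁, (∀ g, φ g P = P) ∧ (∀ g, φ g Q = Q) ∧ Q ≠ 0 ∧
      w * algebraMap _ (RF k₁ d) Q = algebraMap _ _ P := by
  classical
  have := Fintype.ofFinite E
  obtain ⟨P₀, Q₀, hQ₀, rfl⟩ := IsFractionRing.div_surjective (MvPolynomial (Fin d) k₁) w
  have hQ₀' : Q₀ ≠ 0 := nonZeroDivisors.ne_zero hQ₀
  have hinj : Function.Injective (algebraMap (MvPolynomial (Fin d) k₁) (RF k₁ d)) :=
    IsFractionRing.injective _ _
  have hQ1 : algebraMap (MvPolynomial (Fin d) k₁) (RF k₁ d) Q₀ ≠ 0 :=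
    (map_ne_zero_iff _ hinj).mpr hQ₀'
  let Q : MvPolynomial (Fin d) k₁ := ∏ g : E, φ g Q₀
  let P : MvPolynomial (Fin d) k₁ := P₀ * ∏ g ∈ Finset.univ.erase (1 : E), φ g Q₀
  have hQinv : ∀ g, φ g Q = Q := by
    intro g
    simp only [Q]
    rw [map_prod, ← Equiv.prod_comp (Equiv.mulLeft g) (fun h => φ h Q₀)]
    refine Finset.prod_congr rfl fun h _ => ?_
    rw [Equiv.coe_mulLeft, map_mul]
    rfl
  have hQ0 : Q ≠ 0 := by
    refine Finset.prod_ne_zero_iff.mpr fun g _ => ?_
    exact (map_ne_zero_iff _ (φ g).injective).mpr hQ₀'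
  have hfac : Q = Q₀ * ∏ g ∈ Finset.univ.erase (1 : E), φ g Q₀ := by
    simp only [Q]
    rw [← Finset.mul_prod_erase _ _ (Finset.mem_univ (1 : E)), map_one]
    rfl
  have hPQ : algebraMap _ (RF k₁ d) P₀ / algebraMap _ (RF k₁ d) Q₀ * algebraMap _ (RF k₁ d) Q =
      algebraMap _ _ P := by
    rw [hfac, map_mul, ← mul_assoc, div_mul_cancel₀ _ hQ1, ← map_mul]
  refine ⟨P, Q, fun g => ?_, hQinv, hQ0, hPQ⟩
  apply hinj
  rw [← phiF_algebraMap, ← hPQ, map_mul, hw g, phiF_algebraMap, hQinv g]

omit [Finite E] in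
theorem eq_sum_of_isHomogeneous_one {R : Type} [CommRing R] {P : MvPolynomial (Fin d) R}
    (hP : P.IsHomogeneous 1) :
    P = ∑ l, MvPolynomial.C (P.coeff (Finsupp.single l 1)) * MvPolynomial.X l := by
  classical
  have h1 : P ∈ MvPolynomial.homogeneousSubmodule (Fin d) R 1 := hP
  rw [MvPolynomial.homogeneousSubmodule_one_eq_span_X] at h1
  clear hP
  induction h1 using Submodule.span_induction with
  | mem P h =>
    obtain ⟨i, rfl⟩ := h
    rw [Finset.sum_eq_single i]
    · simp
    · intro b _ hb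
      rw [MvPolynomial.coeff_X, if_neg, map_zero, zero_mul]
      intro h
      exact hb (Finsupp.single_left_injective one_ne_zero h).symm
    · simp
  | zero => simp
  | add P Q _ _ h1 h2 =>
    conv_lhs => rw [h1, h2]
    simp only [MvPolynomial.coeff_add, map_add, add_mul, Finset.sum_add_distrib]
  | smul c P _ h1 =>
    conv_lhs => rw [h1]
    simp only [map_mul, Finset.smul_sum, MvPolynomial.coeff_C_mul,
      MvPolynomial.smul_eq_C_mul, mul_assoc]

/-- The matrix of a linear semilinear action. -/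
noncomputable def matM (g : E) : Matrix (Fin d) (Fin d) k₁ :=
  Matrix.of fun i j => (φ g (MvPolynomial.X i)).coeff (Finsupp.single j 1)

omit [Finite E] in
theorem phi_X (hφX : ∀ g i, (φ g (MvPolynomial.X i)).IsHomogeneous 1) (g : E) (i : Fin d) :
    φ g (MvPolynomial.X i) = ∑ j, MvPolynomial.C (matM φ g i j) * MvPolynomial.X j :=
  eq_sum_of_isHomogeneous_one (hφX g i)

omit [Finite E] in
theorem matM_one : matM φ (1 : E) = 1 := by
  ext i j
  simp only [matM, Matrix.of_apply, map_one, RingAut.one_apply, MvPolynomial.coeff_X,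
    Matrix.one_apply]
  by_cases h : i = j
  · subst h; simp
  · rw [if_neg h, if_neg]
    intro h'
    exact h (Finsupp.single_left_injective one_ne_zero h')

omit [Finite E] in
theorem matM_mul (hφC : ∀ g c, φ g (MvPolynomial.C c) = MvPolynomial.C (p g c))
    (hφX : ∀ g i, (φ g (MvPolynomial.X i)).IsHomogeneous 1) (g h : E) :
    matM φ (g * h) = (matM φ h).map (p g) * matM φ g := by
  have key : ∀ i, ∑ j, MvPolynomial.C (matM φ (g * h) i j) * MvPolynomial.X j =
      ∑ j, MvPolynomial.C (((matM φ h).map (p g) * matM φ g) i j) * MvPolynomial.X j := by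
    intro i
    rw [← phi_X φ hφX, map_mul, RingAut.mul_apply, phi_X φ hφX h i, map_sum]
    simp only [map_mul, hφC, phi_X φ hφX g, Matrix.mul_apply, map_sum, Finset.sum_mul,
      Finset.mul_sum, Matrix.map_apply]
    rw [Finset.sum_comm]
    refine Finset.sum_congr rfl fun _ _ => Finset.sum_congr rfl fun _ _ => ?_
    ring
  ext i j
  have h1 := congrArg (MvPolynomial.coeff (Finsupp.single j 1)) (key i)
  have h2 : ∀ A : Matrix (Fin d) (Fin d) k₁, MvPolynomial.coeff (Finsupp.single j 1)
      (∑ l, MvPolynomial.C (A i l) * (MvPolynomial.X l : MvPolynomial (Fin d) k₁)) = A i j := by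
    intro A
    rw [MvPolynomial.coeff_sum, Finset.sum_eq_single j]
    · rw [MvPolynomial.coeff_C_mul, MvPolynomial.coeff_X, if_pos rfl, mul_one]
    · intro l _ hl
      rw [MvPolynomial.coeff_C_mul, MvPolynomial.coeff_X, if_neg, mul_zero]
      intro h'
      exact hl (Finsupp.single_left_injective one_ne_zero h')
    · simp
  rw [h2, h2] at h1
  exact h1

/-- The field of constants with the action of `E`, and the twisted embedding of `k₁(x)`. -/
theorem exists_twist {K : Type} [Field K] [Algebra k₁ K] [Algebra k K] [IsScalarTower k k₁ K]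
    [IsGalois k K] [FiniteDimensional k K]
    (hφC : ∀ g c, φ g (MvPolynomial.C c) = MvPolynomial.C (p g c))
    (hφX : ∀ g i, (φ g (MvPolynomial.X i)).IsHomogeneous 1)
    (e : (K ≃ₐ[k] K) ≃* E) (he : ∀ (σ : K ≃ₐ[k] K) (c : k₁),
      σ (algebraMap k₁ K c) = algebraMap k₁ K (p (e σ) c)) :
    ∃ s : RF K d ≃+* RF K d, (∀ z : K, s (algebraMap K (RF K d) z) = algebraMap K (RF K d) z) ∧
      ∀ (σ : K ≃ₐ[k] K) (f : RF k₁ d), rfMap (σ : K →+* K) d (s (rfMap (algebraMap k₁ K) d f)) =
        s (rfMap (algebraMap k₁ K) d (phiF φ (e σ) f)) := by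
  let _ : MulSemiringAction E K := MulSemiringAction.compHom K (e.symm : E →* (K ≃ₐ[k] K))
  have hsmul : ∀ (g : E) (z : K), g • z = e.symm g z := fun _ _ => rfl
  have hf : FaithfulSMul E K := by
    constructor
    intro g h hgh
    apply e.symm.injective
    ext z
    exact hgh z
  obtain ⟨D, D', h, h', hD⟩ := speiser (E := E) d (fun g => (matM φ g).map (algebraMap k₁ K))
    (by
      rw [matM_one]
      exact Matrix.map_one _ (map_zero _) (map_one _))
    (by
      intro g h
      rw [matM_mul p φ hφC hφX, Matrix.map_mul]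
      congr 1
      ext i j
      simp only [Matrix.map_apply]
      rw [hsmul, he, MulEquiv.apply_symm_apply])
  obtain ⟨s, hs⟩ := exists_linSub_equiv D D' h h'
  refine ⟨s, fun z => ?_, fun σ f => ?_⟩
  · rw [IsScalarTower.algebraMap_apply K (MvPolynomial (Fin d) K) (RF K d),
      MvPolynomial.algebraMap_eq, hs, linSub_C]
  have hC : ∀ (τ : K ≃ₐ[k] K) (c : K), rfMap (τ : K →+* K) d
      (algebraMap (MvPolynomial (Fin d) K) _ (MvPolynomial.C c)) =
      algebraMap (MvPolynomial (Fin d) K) _ (MvPolynomial.C (τ c)) := by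
    intro τ c
    rw [rfMap_algebraMap, MvPolynomial.map_C]
    rfl
  have hhom : ((rfMap (σ : K →+* K) d).comp (s : RF K d →+* RF K d)).comp
      (rfMap (algebraMap k₁ K) d) =
      ((s : RF K d →+* RF K d).comp (rfMap (algebraMap k₁ K) d)).comp
        (phiF φ (e σ) : RF k₁ d →+* RF k₁ d) := by
    apply rf_hom_ext'
    · intro c
      change rfMap (σ : K →+* K) d (s (rfMap (algebraMap k₁ K) d _)) =
        s (rfMap (algebraMap k₁ K) d (phiF φ (e σ) _))
      rw [rfMap_algebraMap, MvPolynomial.map_C, hs, linSub_C, hC, phiF_algebraMap, hφC,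
        rfMap_algebraMap, MvPolynomial.map_C, hs, linSub_C, he]
    · intro i
      change rfMap (σ : K →+* K) d (s (rfMap (algebraMap k₁ K) d _)) =
        s (rfMap (algebraMap k₁ K) d (phiF φ (e σ) _))
      rw [rfMap_algebraMap, MvPolynomial.map_X, hs, linSub_X, rfMap_algebraMap, phiF_algebraMap,
        phi_X φ hφX, rfMap_algebraMap, hs]
      congr 1
      simp only [map_sum, map_mul, MvPolynomial.map_C, MvPolynomial.map_X, linSub_C, linSub_X]
      have h1 := hD (e σ)
      have h2 : ∀ j, σ (D i j) = ∑ l, algebraMap k₁ K (matM φ (e σ) i l) * D l j := by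
        intro j
        have h3 := congrFun (congrFun h1 i) j
        rw [Matrix.map_apply, hsmul, MulEquiv.symm_apply_apply, Matrix.mul_apply] at h3
        simpa using h3
      have h4 : ∀ j, (σ : K →+* K) (D i j) = σ (D i j) := fun _ => rfl
      simp only [h4, h2, map_sum, map_mul, Finset.sum_mul, Finset.mul_sum]
      rw [Finset.sum_comm]
      refine Finset.sum_congr rfl fun _ _ => Finset.sum_congr rfl fun _ _ => ?_
      ring
  exact congrArg (fun q => q f) hhom

/-- Embeddings of the field of invariants in rational function fields over `k` which create no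
roots of given polynomials. -/
theorem exists_embedding [FiniteDimensional k k₁] [IsGalois k k₁]
    (hφC : ∀ g c, φ g (MvPolynomial.C c) = MvPolynomial.C (p g c))
    (hφX : ∀ g i, (φ g (MvPolynomial.X i)).IsHomogeneous 1)
    (hsol : ∀ k' : IntermediateField k (AlgebraicClosure k₁), FiniteDimensional k k' →
      ∃ K : IntermediateField k (AlgebraicClosure k₁), ProperSolution p K ∧
        ∀ z ∈ K, z ∈ k' → z ∈ Set.range (algebraMap k₁ (AlgebraicClosure k₁)))
    (K0 : Type) [Field K0] (ι : K0 →+* RF k₁ d)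
    (hrange : ∀ z : RF k₁ d, (∃ a : K0, ι a = z) ↔
      ∃ P Q : MvPolynomial (Fin d) k₁, (∀ g, φ g P = P) ∧ (∀ g, φ g Q = Q) ∧ Q ≠ 0 ∧
        z * algebraMap _ (RF k₁ d) Q = algebraMap _ _ P)
    (m : ℕ) (Q : Fin m → K0[X]) (hQ : ∀ i, (Q i).Monic) (hroot : ∀ i z, (Q i).eval z ≠ 0) :
    ∃ Θ : K0 →+* RF k d, (∀ (a : K0) (c : k), ι a = algebraMap k (RF k₁ d) c →
      Θ a = algebraMap k (RF k d) c) ∧ ∀ i r, (Q i).eval₂ Θ r ≠ 0 := by
  classical
  have hinjP : Function.Injective (algebraMap (MvPolynomial (Fin d) k₁) (RF k₁ d)) :=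
    IsFractionRing.injective _ _
  -- the field `M` containing all the roots
  let P : (RF k₁ d)[X] := ∏ i, (Q i).map ι
  have hP : P ≠ 0 := Finset.prod_ne_zero_iff.mpr fun i _ => ((hQ i).map ι).ne_zero
  let M : IntermediateField (RF k₁ d) (AlgebraicClosure (RF k₁ d)) :=
    IntermediateField.adjoin (RF k₁ d) (P.rootSet (AlgebraicClosure (RF k₁ d)))
  have hMfd : FiniteDimensional (RF k₁ d) M := by
    have : Finite (P.rootSet (AlgebraicClosure (RF k₁ d))) := P.rootSet_finite _
    exact IntermediateField.finiteDimensional_adjoin fun x _ =>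
      (Algebra.IsAlgebraic.isAlgebraic x).isIntegral
  have hMroot : ∀ i, ∀ z : AlgebraicClosure (RF k₁ d),
      ((Q i).map ι).eval₂ (algebraMap _ _) z = 0 → z ∈ M := by
    intro i z hz
    apply IntermediateField.subset_adjoin
    rw [Polynomial.mem_rootSet]
    refine ⟨hP, ?_⟩
    rw [Polynomial.aeval_def]
    simp only [P]
    rw [Polynomial.eval₂_finsetProd]
    exact Finset.prod_eq_zero (Finset.mem_univ i) hz
  let v₀ : AlgebraicClosure k₁ →ₐ[k₁] AlgebraicClosure (RF k₁ d) := IsAlgClosed.lift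
  obtain ⟨k', hk', hk'M⟩ := exists_constants k k₁ d M v₀
  obtain ⟨K, ⟨hgal, hfdK, e, he⟩, hK⟩ := hsol k' hk'
  -- `K` as an extension of `k₁`
  have hmem : ∀ c : k₁, algebraMap k₁ (AlgebraicClosure k₁) c ∈ K := fun c => (he c).choose
  let j₁ : k₁ →+* K := (algebraMap k₁ (AlgebraicClosure k₁)).codRestrict K hmem
  let _ : Algebra k₁ K := j₁.toAlgebra
  have hj₁ : ∀ c : k₁, ((algebraMap k₁ K c : K) : AlgebraicClosure k₁) =
      algebraMap k₁ (AlgebraicClosure k₁) c := fun _ => rfl
  have htow : IsScalarTower k k₁ K := by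
    apply IsScalarTower.of_algebraMap_eq
    intro c
    apply Subtype.ext
    rw [hj₁, ← IsScalarTower.algebraMap_apply k k₁ (AlgebraicClosure k₁)]
    rfl
  have hgal1 : IsGalois k₁ K := IsGalois.tower_top_of_isGalois k k₁ K
  have hfd1 : FiniteDimensional k₁ K := FiniteDimensional.right k k₁ K
  have he' : ∀ (σ : K ≃ₐ[k] K) (c : k₁),
      σ (algebraMap k₁ K c) = algebraMap k₁ K (p (e σ) c) := by
    intro σ c
    obtain ⟨hc, h⟩ := he c
    exact Subtype.ext (h σ)
  obtain ⟨s, hsC, hs⟩ := exists_twist (d := d) p φ hφC hφX e he'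
  -- the embedding over `k`
  have hinv : ∀ (a : K0) (g : E), phiF φ g (ι a) = ι a := by
    intro a g
    obtain ⟨P, R, hP, hR, hR0, h⟩ := (hrange (ι a)).mp ⟨a, rfl⟩
    have hR1 : algebraMap (MvPolynomial (Fin d) k₁) (RF k₁ d) R ≠ 0 :=
      (map_ne_zero_iff _ hinjP).mpr hR0
    have h1 : phiF φ g (ι a) * algebraMap _ (RF k₁ d) R = algebraMap _ _ P := by
      have h2 := congrArg (phiF φ g) h
      rw [map_mul, phiF_algebraMap, phiF_algebraMap, hP, hR] at h2
      exact h2
    exact mul_right_cancel₀ hR1 (h1.trans h.symm)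
  obtain ⟨Θ, hΘ⟩ := exists_lift (rfMap (algebraMap k K) d)
    (((s : RF K d →+* RF K d).comp (rfMap (algebraMap k₁ K) d)).comp ι) (by
      intro a
      apply mem_range_rfMap (K₀ := k) (K := K) d
      intro σ
      change rfMap (σ : K →+* K) d (s (rfMap (algebraMap k₁ K) d (ι a))) = _
      rw [hs, hinv]
      rfl)
  have hΘ' : ∀ a, rfMap (algebraMap k K) d (Θ a) = s (rfMap (algebraMap k₁ K) d (ι a)) := hΘ
  refine ⟨Θ, ?_, ?_⟩
  · intro a c hac
    apply (rfMap (algebraMap k K) d).injective
    rw [hΘ', hac]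
    have h1 : rfMap (algebraMap k₁ K) d (algebraMap k (RF k₁ d) c) =
        algebraMap K (RF K d) (algebraMap k K c) := by
      rw [IsScalarTower.algebraMap_apply k (MvPolynomial (Fin d) k₁) (RF k₁ d), rfMap_algebraMap,
        IsScalarTower.algebraMap_apply k k₁ (MvPolynomial (Fin d) k₁), MvPolynomial.algebraMap_eq,
        MvPolynomial.map_C, ← IsScalarTower.algebraMap_apply k k₁ K,
        IsScalarTower.algebraMap_apply K (MvPolynomial (Fin d) K) (RF K d),
        MvPolynomial.algebraMap_eq]
    have h2 : rfMap (algebraMap k K) d (algebraMap k (RF k d) c) =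
        algebraMap K (RF K d) (algebraMap k K c) := by
      rw [IsScalarTower.algebraMap_apply k (MvPolynomial (Fin d) k) (RF k d), rfMap_algebraMap,
        MvPolynomial.algebraMap_eq, MvPolynomial.map_C,
        IsScalarTower.algebraMap_apply K (MvPolynomial (Fin d) K) (RF K d),
        MvPolynomial.algebraMap_eq]
    rw [h1, h2, hsC]
  · intro i r hr
    have hβ0 : ((Q i).map ι).eval₂ (rfMap (algebraMap k₁ K) d)
        (s.symm (rfMap (algebraMap k K) d r)) = 0 := by
      apply s.injective
      rw [map_zero, Polynomial.eval₂_map]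
      have h1 := Polynomial.hom_eval₂ (Q i) ((rfMap (algebraMap k₁ K) d).comp ι)
        (s : RF K d →+* RF K d) (s.symm (rfMap (algebraMap k K) d r))
      refine h1.trans ?_
      have h2 : (s : RF K d →+* RF K d).comp ((rfMap (algebraMap k₁ K) d).comp ι) =
          (rfMap (algebraMap k K) d).comp Θ := RingHom.ext fun a => (hΘ' a).symm
      rw [h2]
      change (Q i).eval₂ _ (s (s.symm _)) = 0
      rw [RingEquiv.apply_symm_apply, ← Polynomial.hom_eval₂, hr, map_zero]
    let v : K →ₐ[k₁] AlgebraicClosure (RF k₁ d) :=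
      { toRingHom := (v₀ : AlgebraicClosure k₁ →+* AlgebraicClosure (RF k₁ d)).comp
          (algebraMap K (AlgebraicClosure k₁))
        commutes' := fun c => v₀.commutes c }
    obtain ⟨w, hw⟩ := mem_range_of_root d M v (by
      intro c hc
      obtain ⟨a, ha⟩ := hK c c.2 (hk'M c hc)
      exact ⟨a, Subtype.ext ha⟩) _ (hMroot i) _ hβ0
    have hsw : s (rfMap (algebraMap k₁ K) d w) = rfMap (algebraMap k K) d r := by
      rw [hw, RingEquiv.apply_symm_apply]
    have hwinv : ∀ g, phiF φ g w = w := by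
      intro g
      apply (rfMap (algebraMap k₁ K) d).injective
      apply s.injective
      rw [← e.apply_symm_apply g, ← hs, hsw, rfMap_rfMap]
      congr 2
      ext c
      exact congrArg _ ((e.symm g).commutes c)
    obtain ⟨a, rfl⟩ := (hrange w).mpr (exists_invariant_quotient φ w hwinv)
    apply hroot i a
    apply ι.injective
    apply (rfMap (algebraMap k₁ K) d).injective
    rw [← hw, Polynomial.eval₂_map, ← RingHom.comp_apply, Polynomial.eval₂_at_apply] at hβ0
    rw [← RingHom.comp_apply, hβ0, map_zero, map_zero]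

end main

end Pool.Agent.LibNoether
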