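import Pool.Agent.LibHP.S1b

set_option autoImplicit false
open AlgebraicGeometry CategoryTheory

namespace Pool.Agent.LibNoether

open Pool.Agent.LibHP

/-- The Hilbert property from embeddings of the function field in rational function fields which
create no roots of given polynomials. -/
theorem hilbertProp_of_embeddings (k : Type) [Field k] [NumberField k] {X : Scheme}
    (f : X ⟶ Spec (CommRingCat.of k)) [IsIntegral X] [Smooth f]
    (H : ∀ (m : ℕ) (Q : Fin m → Polynomial X.functionField), (∀ i, (Q i).Monic) →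
      (∀ i z, (Q i).eval z ≠ 0) →
      ∃ (n : ℕ) (F : X.functionField →+* RF k n),
        (∀ c : k, F (toStalk f (genericPoint X) c) = algebraMap k (RF k n) c) ∧
        ∀ i r, (Q i).eval₂ F r ≠ 0) : HilbertProp f := by
  intro m Y π hY hfin hsurj hiso
  rw [dense_iff_inter_open]
  rintro U hUo ⟨x, hxU⟩
  -- normality
  have hnorm : ∀ x : X, ∃ V : X.Opens, IsAffineOpen V ∧ x ∈ V ∧ IsIntegrallyClosed Γ(X, V) := by
    intro x
    obtain ⟨V, hV, hxV, d, ψ, hψ⟩ := exists_etale_chart f x
    refine ⟨V, hV, hxV, ?_⟩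
    have hne : Nonempty V := ⟨⟨_, hxV⟩⟩
    let _ := ψ.toAlgebra
    have : Algebra.Etale (MvPolynomial (Fin d) k) Γ(X, V) := hψ
    exact isIntegrallyClosed_of_etale k d Γ(X, V)
  obtain ⟨V, hV, hxV, hVc⟩ := hnorm x
  obtain ⟨g, hgU, hxg⟩ := hV.exists_basicOpen_le (V := ⟨U, hUo⟩) ⟨x, hxU⟩ hxV
  have hW : IsAffineOpen (X.basicOpen g) := hV.basicOpen g
  have hneV : Nonempty V := ⟨⟨_, hxV⟩⟩
  have hneW : Nonempty (X.basicOpen g) := ⟨⟨_, hxg⟩⟩
  have hWc : IsIntegrallyClosed Γ(X, X.basicOpen g) := by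
    have := hV.isLocalization_basicOpen g
    refine isIntegrallyClosed_of_isLocalization (R := Γ(X, V)) _ (Submonoid.powers g) ?_
    refine powers_le_nonZeroDivisors_of_noZeroDivisors ?_
    rintro rfl
    simp at hxg
  generalize X.basicOpen g = W at hgU hxg hW hneW hWc
  clear hneV hVc hxV hV g V
  have h1 : genericPoint X ∈ W := genericPoint_mem W x hxg
  -- equations
  have hP : ∀ i, ∃ (P : Polynomial Γ(X, W)) (b : Γ(Y i, π i ⁻¹ᵁ W)), P.Monic ∧
      P.eval₂ ((π i).app W).hom b = 0 ∧
      ∀ z : X.functionField, P.eval₂ (X.presheaf.germ W _ h1).hom z ≠ 0 := by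
    intro i
    have := hY i
    have := hfin i
    have := hsurj i
    exact exists_poly (π i) hnorm (hiso i) W hW h1 hWc
  choose P b hPm hPb hPz using hP
  obtain ⟨n, F, hk, hF⟩ := H m (fun i => (P i).map (X.presheaf.germ W _ h1).hom)
    (fun i => (hPm i).map _) (fun i z => by rw [Polynomial.eval_map]; exact hPz i z)
  -- the algebra
  let _ : Algebra k Γ(X, W) := (toSec f W).toAlgebra
  have hft : Algebra.FiniteType k Γ(X, W) := by
    have h2 : (toSec f W).FiniteType := by
      refine RingHom.FiniteType.comp (g := (f.appLE ⊤ W le_top).hom)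
        (f.finiteType_appLE (isAffineOpen_top _) hW le_top) ?_
      exact RingHom.FiniteType.of_surjective _
        ((ConcreteCategory.isIso_iff_bijective
          (Scheme.ΓSpecIso (CommRingCat.of k)).inv).mp inferInstance).2
    exact h2
  let FA : Γ(X, W) →ₐ[k] RF k n :=
    { toRingHom := F.comp (X.presheaf.germ W _ h1).hom
      commutes' := by
        intro c
        rw [← hk c]
        change F (X.presheaf.germ W _ h1 (toSec f W c)) = F (toStalk f _ c)
        congr 1
        have h3 : f.appLE ⊤ W le_top ≫ X.presheaf.germ W _ h1 =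
            f.appTop ≫ X.presheaf.germ ⊤ _ trivial := by
          rw [Scheme.Hom.appLE, Category.assoc, TopCat.Presheaf.germ_res]
          rfl
        exact congrArg (fun q => q ((Scheme.ΓSpecIso (CommRingCat.of k)).inv c)) h3 }
  obtain ⟨φ, hφ⟩ := exists_point_of_hom k n Γ(X, W) FA P hPm (by
    intro i r hr
    have hr2 : ((P i).map (X.presheaf.germ W _ h1).hom).eval₂ F r = 0 := by
      rw [Polynomial.eval₂_map]
      rw [Polynomial.IsRoot.def, Polynomial.eval_map] at hr
      exact hr
    exact hF i r hr2)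
  -- the point
  refine ⟨(Spec.map (CommRingCat.ofHom (φ : Γ(X, W) →+* k)) ≫ hW.fromSpec :
    Spec (CommRingCat.of k) ⟶ X) (IsLocalRing.closedPoint k), ?_, ?_⟩
  · apply hgU
    have h4 := preimage_eq_top W hW (φ : Γ(X, W) →+* k)
    have h5 : (IsLocalRing.closedPoint k) ∈
      (Spec.map (CommRingCat.ofHom (φ : Γ(X, W) →+* k)) ≫ hW.fromSpec :
        Spec (CommRingCat.of k) ⟶ X) ⁻¹ᵁ W := by
      rw [h4]; trivial
    exact h5
  · refine ⟨_, point_comp f W hW (φ : Γ(X, W) →+* k) (fun c => φ.commutes c), ⟨_, rfl⟩, ?_⟩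
    intro i t ht
    obtain ⟨τ, hτ⟩ := exists_lift_of_point (π i) W hW (φ : Γ(X, W) →+* k) t ht
    apply hφ i (τ (b i))
    rw [Polynomial.IsRoot.def, Polynomial.eval_map, ← hτ, ← Polynomial.hom_eval₂, hPb i, map_zero]

end Pool.Agent.LibNoether
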