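import Pool.Agent.LibNoether.N4
import Pool.Agent.LibNoether.N5

set_option autoImplicit false
open AlgebraicGeometry CategoryTheory

namespace Pool.Agent.LibNoether

open Pool.Agent.LibHP

/-- Solutions of the embedding problem which are disjoint from any given finite extension give the
Hilbert property. -/
theorem hilbertProp_of_solutions (k k₁ E : Type) [Field k] [NumberField k] [Field k₁] [Algebra k k₁]
    [FiniteDimensional k k₁] [IsGalois k k₁] [Group E] [Finite E] (d : ℕ)
    (p : E →* (k₁ ≃ₐ[k] k₁)) (φ : E →* RingAut (MvPolynomial (Fin d) k₁))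
    (hφC : ∀ g c, φ g (MvPolynomial.C c) = MvPolynomial.C (p g c))
    (hφX : ∀ g i, (φ g (MvPolynomial.X i)).IsHomogeneous 1)
    {X : Scheme} (f : X ⟶ Spec (CommRingCat.of k)) [IsIntegral X] [Smooth f]
    (ι : X.functionField →+* FractionRing (MvPolynomial (Fin d) k₁))
    (hι : ∀ c : k, ι (toStalk f (genericPoint X) c) =
      algebraMap k (FractionRing (MvPolynomial (Fin d) k₁)) c)
    (hrange : ∀ z : FractionRing (MvPolynomial (Fin d) k₁), (∃ a : X.functionField, ι a = z) ↔
      ∃ P Q : MvPolynomial (Fin d) k₁, (∀ g, φ g P = P) ∧ (∀ g, φ g Q = Q) ∧ Q ≠ 0 ∧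
        z * algebraMap _ (FractionRing (MvPolynomial (Fin d) k₁)) Q = algebraMap _ _ P)
    (hsol : ∀ k' : IntermediateField k (AlgebraicClosure k₁), FiniteDimensional k k' →
      ∃ K : IntermediateField k (AlgebraicClosure k₁), ProperSolution p K ∧
        ∀ z ∈ K, z ∈ k' → z ∈ Set.range (algebraMap k₁ (AlgebraicClosure k₁))) :
    HilbertProp f := by
  apply hilbertProp_of_embeddings k f
  intro m Q hQ hroot
  obtain ⟨Θ, h1, h2⟩ := exists_embedding p φ hφC hφX hsol X.functionField ι hrange m Q hQ hroot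
  exact ⟨d, Θ, fun c => h1 _ c (hι c), h2⟩

end Pool.Agent.LibNoether
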